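import Pool.Agent.SAG.FewStable

/-!
# Rankings onto an initial segment exist
-/

namespace SAG

open SAQ Finset

variable {A : Type} [Fintype A] {K : ℕ} {β : A → ℕ → ℤ} {c : A → ℕ → ℝ} {C : ℤ} {ψ : ℤ → ℝ}

open Classical in
theorem exists_rk_lt (h : AggOK K β c C ψ) :
    ∃ ρ : A × Fin K → ℕ, Rk c ρ ∧ ∀ e, ρ e < Fintype.card A * K := by
  set ρ : A × Fin K → ℕ := fun e => (univ.filter fun e' : A × Fin K => key c e' < key c e).card
    with hρ
  have hlt : ∀ e e' : A × Fin K, key c e < key c e' → ρ e < ρ e' := by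
    intro e e' hee
    apply Finset.card_lt_card
    rw [Finset.ssubset_iff_of_subset]
    · refine ⟨e, ?_, ?_⟩
      · rw [mem_filter]
        exact ⟨mem_univ _, hee⟩
      · rw [mem_filter]
        rintro ⟨-, h⟩
        exact lt_irrefl _ h
    · intro f hf
      rw [mem_filter] at hf ⊢
      exact ⟨mem_univ _, hf.2.trans hee⟩
  refine ⟨ρ, ⟨fun e e' hee => ?_, fun e e' hee => ?_, fun a p q hpq => hlt _ _ (key_piece h a hpq)⟩,
    fun e => ?_⟩
  · apply key_inj c
    rcases lt_trichotomy (key c e) (key c e') with h1 | h1 | h1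
    · exact absurd (hlt _ _ h1) (by omega)
    · exact h1
    · exact absurd (hlt _ _ h1) (by omega)
  · apply key_le
    by_contra hn
    exact absurd (hlt _ _ (not_le.1 hn)) (by omega)
  · have h1 : Fintype.card (A × Fin K) = Fintype.card A * K := by
      rw [Fintype.card_prod, Fintype.card_fin]
    rw [← h1, ← Finset.card_univ]
    apply Finset.card_lt_card
    rw [Finset.ssubset_univ_iff]
    intro h2
    have h3 : e ∈ univ.filter fun e' : A × Fin K => key c e' < key c e := by
      rw [h2]
      exact mem_univ _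
    rw [mem_filter] at h3
    exact lt_irrefl _ h3.2

variable {M W : Type} [Fintype M] [Fintype W] [DecidableEq M] {d : Few M W}

omit [Fintype M] in
theorem few_exists_ranks (hd : d.OK) : ∃ ρ, d.Ranks ρ := by
  choose ρ hρ using fun i => exists_rk_lt (hd.agg i)
  refine ⟨ρ, fun i => (hρ i).1, fun i => (hρ i).2, fun i t ht => ?_⟩
  have hinj : Function.Injective (fun e : W × Fin d.K =>
      (⟨ρ i e, (hρ i).2 e⟩ : Fin (Fintype.card W * d.K))) := by
    intro e e' h
    exact (hρ i).1.inj (Fin.ext_iff.1 h)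
  have hsurj := ((Fintype.bijective_iff_injective_and_card _).2 ⟨hinj, by
    rw [Fintype.card_prod, Fintype.card_fin, Fintype.card_fin]⟩).2
  obtain ⟨e, he⟩ := hsurj ⟨t, ht⟩
  exact ⟨e, Fin.ext_iff.1 he⟩

end SAG
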