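import Pool.Agent.SAG.Core

/-!
# Optimality of the bundle of one agent
-/

namespace SAG

open SAQ Finset

variable {A : Type} [Fintype A] {K : ℕ} {β : A → ℕ → ℤ} {c : A → ℕ → ℝ} {C : ℤ} {ψ : ℤ → ℝ}

/-- The first piece of `a` that is not full is dominated at this agent. -/
def Free (β : A → ℕ → ℤ) (c : A → ℕ → ℝ) (C : ℤ) (ψ : ℤ → ℝ) (ρ : A × Fin K → ℕ)
    (z : A × Fin K → ℤ) (a : A) (p : Fin K) : Prop :=
  z (a, p) < β a (p + 1) - β a p ∧ (∀ q, q < p → z (a, q) = β a (q + 1) - β a q) ∧
    cnt C ψ (c a p) ≤ pre ρ z (a, p)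

theorem pre_le {ρ : A × Fin K → ℕ} {z : A × Fin K → ℤ} (hz : ∀ e, 0 ≤ z e) (e : A × Fin K) :
    pre ρ z e ≤ ∑ e, z e :=
  Finset.sum_le_sum_of_subset_of_nonneg (subset_univ _) (fun e _ _ => hz e)

theorem pre_add_le {ρ : A × Fin K → ℕ} {z : A × Fin K → ℤ} (hz : ∀ e, 0 ≤ z e)
    {e e' : A × Fin K} (h : ρ e < ρ e') : pre ρ z e + z e' ≤ pre ρ z e' := by
  classical
  unfold pre
  rw [add_comm, ← Finset.sum_insert (a := e')]
  · refine Finset.sum_le_sum_of_subset_of_nonneg ?_ (fun e _ _ => hz e)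
    intro f hf
    rw [mem_insert, mem_filter] at hf
    rw [mem_filter]
    refine ⟨mem_univ _, ?_⟩
    rcases hf with rfl | hf
    · exact le_rfl
    · omega
  · rw [mem_filter]
    intro h3
    omega

theorem exists_theta (h : AggOK K β c C ψ) {ρ : A × Fin K → ℕ} (hr : Rk c ρ)
    {z : A × Fin K → ℤ} (hz : ∀ e, 0 ≤ z e)
    (H1 : ∀ e, 0 < z e → pre ρ z e ≤ cnt C ψ (c e.1 e.2)) :
    ∃ θ : ℝ, (∀ e, 0 < z e → θ ≤ c e.1 e.2) ∧
      (1 ≤ ∑ e, z e → 0 < θ + ψ (∑ e, z e) - ψ (∑ e, z e - 1)) ∧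
      ∀ a p, Free β c C ψ ρ z a p → c a p ≤ θ := by
  classical
  by_cases hex : ∃ e, 0 < z e
  · obtain ⟨e0, he0⟩ := hex
    obtain ⟨e, he, hmax⟩ := Finset.exists_max_image (univ.filter fun e => 0 < z e) ρ
      ⟨e0, by simp only [mem_filter, mem_univ, true_and]; exact he0⟩
    simp only [mem_filter, mem_univ, true_and] at he hmax
    have hS : pre ρ z e = ∑ e, z e := by
      unfold pre
      apply Finset.sum_subset (subset_univ _)
      intro f _ hf
      rw [mem_filter] at hf
      by_contra hne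
      exact hf ⟨mem_univ _, hmax f (lt_of_le_of_ne (hz f) (Ne.symm hne))⟩
    refine ⟨c e.1 e.2, fun f hf => hr.anti _ _ (hmax f hf), fun h1 => ?_, ?_⟩
    · have h2 := H1 e he
      rw [hS] at h2
      exact acc_of_le_cnt h h1 h2
    · rintro a p ⟨-, -, h3⟩
      rcases le_or_gt (ρ e) (ρ (a, p)) with h4 | h4
      · exact hr.anti _ _ h4
      · exfalso
        have h5 := pre_add_le hz h4
        have h6 := H1 e he
        have h7 : cnt C ψ (c e.1 e.2) ≤ cnt C ψ (c a p) :=
          cnt_mono C (hr.anti _ _ h4.le)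
        omega
  · push Not at hex
    have hz0 : ∀ e, z e = 0 := fun e => le_antisymm (hex e) (hz e)
    obtain ⟨θ, hθ⟩ := Finset.exists_le (univ.image fun e : A × Fin K => c e.1 e.2)
    refine ⟨θ, fun e he => absurd he (by rw [hz0 e]; exact lt_irrefl _), fun h1 => ?_,
      fun a p _ => hθ _ (mem_image.2 ⟨(a, p), mem_univ _, rfl⟩)⟩
    exfalso
    rw [Finset.sum_eq_zero fun e _ => hz0 e] at h1
    omega

theorem best (h : AggOK K β c C ψ) {ρ : A × Fin K → ℕ} (hr : Rk c ρ) {z : A × Fin K → ℤ}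
    (hz : ∀ e, 0 ≤ z e) (hle : ∀ a (p : Fin K), z (a, p) ≤ β a (p + 1) - β a p)
    (hfill : ∀ a (p q : Fin K), p < q → z (a, p) < β a (p + 1) - β a p → z (a, q) = 0)
    (htot : ∑ e, z e ≤ C) (H1 : ∀ e, 0 < z e → pre ρ z e ≤ cnt C ψ (c e.1 e.2))
    {y : A → ℤ} (hy : ∀ a, 0 ≤ y a ∧ y a ≤ β a K) (hyC : ∑ a, y a ≤ C)
    (hc : ∀ a, y a ≤ ∑ q, z (a, q) ∨ ∃ p, Free β c C ψ ρ z a p) :
    ∑ a, pw K (β a) (c a) (y a) + ψ (∑ a, y a) ≤
      ∑ a, pw K (β a) (c a) (∑ q, z (a, q)) + ψ (∑ a, ∑ q, z (a, q)) := by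
  classical
  obtain ⟨θ, θ1, θ2, θ3⟩ := exists_theta h hr hz H1
  set S := ∑ e, z e with hS
  have hx0 : ∀ a, 0 ≤ ∑ q, z (a, q) := tot_nonneg hz
  have hxK : ∀ a, ∑ q, z (a, q) ≤ β a K := tot_le h hle
  have hport := portion_tot h hz hle hfill
  have hxS : ∑ a, ∑ q, z (a, q) = S := sum_tot z
  have hS0 : 0 ≤ S := Finset.sum_nonneg fun e _ => hz e
  have hmono : ∀ a (p : Fin K), β a p ≤ β a (p + 1) := fun a p => h.mono a p p.2
  -- decrease
  have hdown : ∀ a, y a ≤ ∑ q, z (a, q) → pw K (β a) (c a) (y a) -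
      pw K (β a) (c a) (∑ q, z (a, q)) ≤ θ * ((y a : ℝ) - (∑ q, z (a, q) : ℤ)) := by
    intro a ha
    unfold pw
    have e1 : ((y a : ℤ) : ℝ) = ∑ p : Fin K, (portion (β a) p (y a) : ℝ) := by
      rw [← Int.cast_sum, sum_portion (h.zero a) (hy a).1 (hy a).2]
    have e2 : ((∑ q, z (a, q) : ℤ) : ℝ) = ∑ p : Fin K, (portion (β a) p (∑ q, z (a, q)) : ℝ) := by
      rw [← Int.cast_sum, sum_portion (h.zero a) (hx0 a) (hxK a)]
    rw [e1, e2, ← Finset.sum_sub_distrib, ← Finset.sum_sub_distrib, Finset.mul_sum]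
    apply Finset.sum_le_sum
    intro p _
    have h1 := portion_mono (hmono a p) ha
    have h2 := portion_nonneg (hmono a p) (y a)
    rcases eq_or_lt_of_le h1 with h3 | h3
    · rw [h3]
      simp
    · have h4 : 0 < z (a, p) := by
        rw [← hport a p]
        omega
      have h5 := θ1 (a, p) h4
      simp only at h5
      have h6 : ((portion (β a) p (y a) : ℤ) : ℝ) ≤ (portion (β a) p (∑ q, z (a, q)) : ℤ) := by
        exact_mod_cast h1
      nlinarith
  -- increase
  have hup : ∀ a p, Free β c C ψ ρ z a p → ∑ q, z (a, q) ≤ y a → pw K (β a) (c a) (y a) -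
      pw K (β a) (c a) (∑ q, z (a, q)) ≤ c a p * ((y a : ℝ) - (∑ q, z (a, q) : ℤ)) := by
    intro a p hp ha
    unfold pw
    have e1 : ((y a : ℤ) : ℝ) = ∑ p : Fin K, (portion (β a) p (y a) : ℝ) := by
      rw [← Int.cast_sum, sum_portion (h.zero a) (hy a).1 (hy a).2]
    have e2 : ((∑ q, z (a, q) : ℤ) : ℝ) = ∑ p : Fin K, (portion (β a) p (∑ q, z (a, q)) : ℝ) := by
      rw [← Int.cast_sum, sum_portion (h.zero a) (hx0 a) (hxK a)]
    rw [e1, e2, ← Finset.sum_sub_distrib, ← Finset.sum_sub_distrib, Finset.mul_sum]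
    apply Finset.sum_le_sum
    intro q _
    have h1 := portion_mono (hmono a q) ha
    have h6 : ((portion (β a) q (∑ q, z (a, q)) : ℤ) : ℝ) ≤ (portion (β a) q (y a) : ℤ) := by
      exact_mod_cast h1
    rcases lt_or_ge q p with h3 | h3
    · have h4 := hp.2.1 q h3
      have h5 := portion_le (hmono a q) (y a)
      rw [← hport a q] at h4
      have h7 : portion (β a) q (y a) = portion (β a) q (∑ q, z (a, q)) := by omega
      rw [h7]
      simp
    · have h4 : c a q ≤ c a p := h.antiK a h3 q.2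
      nlinarith
  -- every partner, with the slope θ
  have hθ : ∀ a, pw K (β a) (c a) (y a) - pw K (β a) (c a) (∑ q, z (a, q)) ≤
      θ * ((y a : ℝ) - (∑ q, z (a, q) : ℤ)) := by
    intro a
    rcases le_or_gt (y a) (∑ q, z (a, q)) with h1 | h1
    · exact hdown a h1
    · rcases hc a with h2 | ⟨p, hp⟩
      · omega
      · have h3 := hup a p hp h1.le
        have h4 := θ3 a p hp
        have h5 : ((∑ q, z (a, q) : ℤ) : ℝ) < (y a : ℝ) := by exact_mod_cast h1
        nlinarith
  have hsum : ∀ μ : ℝ, (∀ a, pw K (β a) (c a) (y a) - pw K (β a) (c a) (∑ q, z (a, q)) ≤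
      μ * ((y a : ℝ) - (∑ q, z (a, q) : ℤ))) →
      ∑ a, pw K (β a) (c a) (y a) - ∑ a, pw K (β a) (c a) (∑ q, z (a, q)) ≤
        μ * (((∑ a, y a : ℤ) : ℝ) - (S : ℝ)) := by
    intro μ hμ
    rw [← Finset.sum_sub_distrib]
    refine (Finset.sum_le_sum fun a _ => hμ a).trans ?_
    rw [← Finset.mul_sum, Finset.sum_sub_distrib, ← Int.cast_sum, ← Int.cast_sum, hxS]
  rw [hxS]
  rcases le_or_gt (∑ a, y a) S with hcase | hcase
  · have h1 := hsum θ hθ
    obtain ⟨n, hn⟩ := Int.eq_ofNat_of_zero_le (show 0 ≤ S - ∑ a, y a by omega)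
    have hy0 : 0 ≤ ∑ a, y a := Finset.sum_nonneg fun a _ => (hy a).1
    have h2 := h.down S htot n (by omega)
    have e1 : S - (n : ℤ) = ∑ a, y a := by omega
    rw [e1] at h2
    have e2 : ((∑ a, y a : ℤ) : ℝ) - (S : ℝ) = -(n : ℝ) := by
      have : (∑ a, y a : ℤ) = S - n := by omega
      rw [this]
      push_cast
      ring
    rw [e2] at h1
    rcases Nat.eq_zero_or_pos n with h0 | h0
    · subst h0
      simp only [Nat.cast_zero, zero_mul, neg_zero, mul_zero] at h1 h2
      linarith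
    · have h3 := θ2 (by omega)
      have h4 : (1 : ℝ) ≤ n := by exact_mod_cast h0
      nlinarith
  · obtain ⟨n, hn⟩ := Int.eq_ofNat_of_zero_le (show 0 ≤ ∑ a, y a - S by omega)
    have h2 := h.up S hS0 n (by omega)
    have e1 : S + (n : ℤ) = ∑ a, y a := by omega
    rw [e1] at h2
    have e2 : ((∑ a, y a : ℤ) : ℝ) - (S : ℝ) = (n : ℝ) := by
      have : (∑ a, y a : ℤ) = S + n := by omega
      rw [this]
      push_cast
      ring
    have hn1 : 1 ≤ n := by omega
    have hn1' : (1 : ℝ) ≤ n := by exact_mod_cast hn1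
    set Δ := ψ (S + 1) - ψ S with hΔ
    have θ4 : ∀ a p, Free β c C ψ ρ z a p → c a p + Δ ≤ 0 := by
      intro a p hp
      by_contra hneg
      push Not at hneg
      have h3 : Acc ψ (c a p) (S + 1) := by
        unfold Acc
        rw [add_sub_cancel_right]
        linarith
      have h4 := le_cnt h (by omega) (by omega) h3
      have h5 := hp.2.2
      have h6 := pre_le (ρ := ρ) hz (a, p)
      omega
    rcases le_or_gt θ (-Δ) with h3 | h3
    · have h1 := hsum θ hθ
      rw [e2] at h1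
      nlinarith
    · have h1 := hsum (-Δ) (fun a => by
        rcases le_or_gt (y a) (∑ q, z (a, q)) with h5 | h5
        · have h6 := hθ a
          have h7 : ((y a : ℤ) : ℝ) ≤ ((∑ q, z (a, q) : ℤ) : ℝ) := by exact_mod_cast h5
          nlinarith
        · rcases hc a with h6 | ⟨p, hp⟩
          · omega
          · have h7 := hup a p hp h5.le
            have h8 := θ4 a p hp
            have h9 : ((∑ q, z (a, q) : ℤ) : ℝ) < (y a : ℝ) := by exact_mod_cast h5
            nlinarith)
      rw [e2] at h1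
      nlinarith

/-! ### Condition (A) and M♮-concavity -/

theorem agg_eq {y : A → ℤ} (hy : (∀ a, 0 ≤ y a ∧ y a ≤ β a K) ∧ ∑ a, y a ≤ C) :
    agg K β c C ψ y =
      (((∑ a, pw K (β a) (c a) (y a)) + ψ (∑ a, y a) : ℝ) : WithBot ℝ) := by
  unfold agg
  rw [if_pos hy]

theorem agg_ne_bot {y : A → ℤ} :
    agg K β c C ψ y ≠ ⊥ ↔ (∀ a, 0 ≤ y a ∧ y a ≤ β a K) ∧ ∑ a, y a ≤ C := by
  unfold agg
  split_ifs with h1
  · exact ⟨fun _ => h1, fun _ => WithBot.coe_ne_bot⟩
  · exact ⟨fun h => absurd rfl h, fun h => absurd h h1⟩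

theorem agg_condA (h : AggOK K β c C ψ) : CondA (agg K β c C ψ) where
  bdd := by
    refine ⟨C.toNat, fun y hy v => ?_⟩
    rw [agg_ne_bot] at hy
    have h1 : y v ≤ ∑ a, y a := Finset.single_le_sum (fun a _ => (hy.1 a).1) (mem_univ v)
    have h2 := (hy.1 v).1
    have h3 := hy.2
    have h4 := h.C0
    rw [abs_of_nonneg h2, Int.toNat_of_nonneg h4]
    omega
  zero_mem := by
    rw [agg_ne_bot]
    refine ⟨fun a => ⟨le_rfl, h.nonneg a le_rfl⟩, ?_⟩
    simpa using h.C0
  nonneg := by
    intro y hy a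
    rw [agg_ne_bot] at hy
    exact (hy.1 a).1
  hered := by
    intro y y' hy h0 hle
    rw [agg_ne_bot] at hy ⊢
    refine ⟨fun a => ⟨h0 a, (hle a).trans (hy.1 a).2⟩, ?_⟩
    exact (Finset.sum_le_sum fun a _ => hle a).trans hy.2

omit [Fintype A] in
theorem exists_piece (h : AggOK K β c C ψ) (a : A) {t : ℤ} (ht : 0 ≤ t) (htK : t < β a K) :
    ∃ p, p < K ∧ β a p ≤ t ∧ t < β a (p + 1) := by
  classical
  have hex : ∃ p, t < β a p := ⟨K, htK⟩
  obtain ⟨m, hm⟩ : ∃ m, Nat.find hex = m + 1 := by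
    refine Nat.exists_eq_succ_of_ne_zero (fun h0 => ?_)
    have := Nat.find_spec hex
    rw [h0, h.zero a] at this
    omega
  have h1 : t < β a (m + 1) := by
    rw [← hm]
    exact Nat.find_spec hex
  have h2 : ¬ t < β a m := Nat.find_min hex (by omega)
  have h3 : Nat.find hex ≤ K := Nat.find_le htK
  exact ⟨m, by omega, by omega, h1⟩

omit [Fintype A] in
theorem pw_succ (h : AggOK K β c C ψ) (a : A) {t : ℤ} {p : ℕ} (hp : p < K) (h1 : β a p ≤ t)
    (h2 : t < β a (p + 1)) : pw K (β a) (c a) (t + 1) - pw K (β a) (c a) t = c a p := by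
  unfold pw
  rw [← Finset.sum_sub_distrib, Finset.sum_eq_single ⟨p, hp⟩]
  · have : portion (β a) p (t + 1) = portion (β a) p t + 1 := by
      unfold portion
      omega
    simp only [this]
    push_cast
    ring
  · intro q _ hne
    have hq := q.2
    have h3 : portion (β a) q (t + 1) = portion (β a) q t := by
      have h4 := h.mono a q hq
      rcases lt_or_gt_of_ne (fun hh : (q : ℕ) = p => hne (Fin.ext hh)) with h5 | h5
      · have h6 := h.le a (show (q : ℕ) + 1 ≤ p by omega) (by omega)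
        unfold portion
        omega
      · have h6 := h.le a (show p + 1 ≤ (q : ℕ) by omega) (by omega)
        unfold portion
        omega
    rw [h3]
    ring
  · intro hh
    exact absurd (mem_univ _) hh

omit [Fintype A] in
theorem pw_concave (h : AggOK K β c C ψ) (a : A) {p q : ℤ} (hq : 0 ≤ q) (hqp : q < p)
    (hp : p ≤ β a K) : pw K (β a) (c a) p + pw K (β a) (c a) q ≤
      pw K (β a) (c a) (p - 1) + pw K (β a) (c a) (q + 1) := by
  obtain ⟨p1, h1, h2, h3⟩ := exists_piece h a hq (by omega)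
  obtain ⟨p2, h4, h5, h6⟩ := exists_piece h a (show 0 ≤ p - 1 by omega) (by omega)
  have h7 : p1 ≤ p2 := by
    by_contra hlt
    have h8 := h.le a (show p2 + 1 ≤ p1 by omega) (by omega)
    omega
  have h8 := h.antiK a h7 h4
  have h9 := pw_succ h a h1 h2 h3
  have h10 := pw_succ h a h4 h5 h6
  rw [sub_add_cancel] at h10
  linarith

variable [DecidableEq A]

omit [Fintype A] in
theorem ev_some (u a : A) : ev (some u) a = if u = a then 1 else 0 := by
  simp [ev]

theorem sum_ev_some (u : A) : ∑ a, ev (some u) a = 1 := by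
  simp [ev]

omit [Fintype A] in
theorem ev_none (a : A) : ev (none : Option A) a = 0 := by
  simp [ev]

theorem agg_mnat (h : AggOK K β c C ψ) : MNatConcave (agg K β c C ψ) := by
  intro x y hx hy b hb
  rw [agg_ne_bot] at hx hy
  by_cases hsum : ∑ a, x a ≤ ∑ a, y a
  · have hw : ∃ w, x w < y w := by
      by_contra hno
      push Not at hno
      have := Finset.sum_lt_sum (fun a _ => hno a) ⟨b, mem_univ b, hb⟩
      omega
    obtain ⟨w, hw⟩ := hw
    have hbw : b ≠ w := by rintro rfl; omega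
    refine ⟨some w, fun w' hw' => ?_, ?_⟩
    · rw [← Option.some.inj hw']; exact hw
    have sx : ∑ a, (x - ev (some b) + ev (some w)) a = ∑ a, x a := by
      simp only [Pi.add_apply, Pi.sub_apply, Finset.sum_add_distrib, Finset.sum_sub_distrib,
        sum_ev_some]
      ring
    have sy : ∑ a, (y + ev (some b) - ev (some w)) a = ∑ a, y a := by
      simp only [Pi.add_apply, Pi.sub_apply, Finset.sum_add_distrib, Finset.sum_sub_distrib,
        sum_ev_some]
      ring
    have hx' : (∀ a, 0 ≤ (x - ev (some b) + ev (some w)) a ∧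
        (x - ev (some b) + ev (some w)) a ≤ β a K) ∧
        ∑ a, (x - ev (some b) + ev (some w)) a ≤ C := by
      refine ⟨fun a => ?_, ?_⟩
      · have h1 := hx.1 a
        have h2 := hy.1 a
        simp only [Pi.add_apply, Pi.sub_apply, ev_some]
        by_cases e1 : b = a
        · subst e1
          rw [if_pos rfl, if_neg (fun h => hbw h.symm)]
          omega
        · by_cases e2 : w = a
          · subst e2
            rw [if_neg e1, if_pos rfl]
            omega
          · rw [if_neg e1, if_neg e2]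
            omega
      · rw [sx]
        exact hx.2
    have hy' : (∀ a, 0 ≤ (y + ev (some b) - ev (some w)) a ∧
        (y + ev (some b) - ev (some w)) a ≤ β a K) ∧
        ∑ a, (y + ev (some b) - ev (some w)) a ≤ C := by
      refine ⟨fun a => ?_, ?_⟩
      · have h1 := hx.1 a
        have h2 := hy.1 a
        simp only [Pi.add_apply, Pi.sub_apply, ev_some]
        by_cases e1 : b = a
        · subst e1
          rw [if_pos rfl, if_neg (fun h => hbw h.symm)]
          omega
        · by_cases e2 : w = a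
          · subst e2
            rw [if_neg e1, if_pos rfl]
            omega
          · rw [if_neg e1, if_neg e2]
            omega
      · rw [sy]
        exact hy.2
    rw [agg_eq hx, agg_eq hy, agg_eq hx', agg_eq hy', ← WithBot.coe_add, ← WithBot.coe_add,
      WithBot.coe_le_coe, sx, sy]
    have key : ∑ a, pw K (β a) (c a) (x a) + ∑ a, pw K (β a) (c a) (y a) ≤
        ∑ a, pw K (β a) (c a) ((x - ev (some b) + ev (some w)) a) +
        ∑ a, pw K (β a) (c a) ((y + ev (some b) - ev (some w)) a) := by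
      rw [← Finset.sum_add_distrib, ← Finset.sum_add_distrib]
      apply Finset.sum_le_sum
      intro a _
      simp only [Pi.add_apply, Pi.sub_apply, ev_some]
      by_cases e1 : b = a
      · subst e1
        rw [if_pos rfl, if_neg (fun h => hbw h.symm), add_zero, sub_zero]
        exact pw_concave h b (hy.1 b).1 hb (hx.1 b).2
      · by_cases e2 : w = a
        · subst e2
          rw [if_neg e1, if_pos rfl, sub_zero, add_zero, add_comm,
            add_comm (pw K (β w) (c w) (x w + 1))]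
          exact pw_concave h w (hx.1 w).1 hw (hy.1 w).2
        · rw [if_neg e1, if_neg e2]
          simp
    linarith
  · push Not at hsum
    refine ⟨none, fun w' hw' => by simp at hw', ?_⟩
    have e0 : (ev none : A → ℤ) = 0 := by
      funext a; simp [ev]
    rw [e0, add_zero, sub_zero]
    have sx : ∑ a, (x - ev (some b)) a = ∑ a, x a - 1 := by
      simp only [Pi.sub_apply, Finset.sum_sub_distrib, sum_ev_some]
    have sy : ∑ a, (y + ev (some b)) a = ∑ a, y a + 1 := by
      simp only [Pi.add_apply, Finset.sum_add_distrib, sum_ev_some]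
    have hx' : (∀ a, 0 ≤ (x - ev (some b)) a ∧ (x - ev (some b)) a ≤ β a K) ∧
        ∑ a, (x - ev (some b)) a ≤ C := by
      refine ⟨fun a => ?_, ?_⟩
      · have h1 := hx.1 a
        have h2 := hy.1 a
        simp only [Pi.sub_apply, ev_some]
        by_cases e1 : b = a
        · subst e1
          rw [if_pos rfl]
          omega
        · rw [if_neg e1]
          omega
      · rw [sx]
        have := hx.2
        omega
    have hy' : (∀ a, 0 ≤ (y + ev (some b)) a ∧ (y + ev (some b)) a ≤ β a K) ∧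
        ∑ a, (y + ev (some b)) a ≤ C := by
      refine ⟨fun a => ?_, ?_⟩
      · have h1 := hx.1 a
        have h2 := hy.1 a
        simp only [Pi.add_apply, ev_some]
        by_cases e1 : b = a
        · subst e1
          rw [if_pos rfl]
          omega
        · rw [if_neg e1]
          omega
      · rw [sy]
        have := hx.2
        omega
    rw [agg_eq hx, agg_eq hy, agg_eq hx', agg_eq hy', ← WithBot.coe_add, ← WithBot.coe_add,
      WithBot.coe_le_coe, sx, sy]
    have key : ∑ a, pw K (β a) (c a) (x a) + ∑ a, pw K (β a) (c a) (y a) ≤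
        ∑ a, pw K (β a) (c a) ((x - ev (some b)) a) +
        ∑ a, pw K (β a) (c a) ((y + ev (some b)) a) := by
      rw [← Finset.sum_add_distrib, ← Finset.sum_add_distrib]
      apply Finset.sum_le_sum
      intro a _
      simp only [Pi.add_apply, Pi.sub_apply, ev_some]
      by_cases e1 : b = a
      · subst e1
        rw [if_pos rfl]
        exact pw_concave h b (hy.1 b).1 hb (hx.1 b).2
      · rw [if_neg e1]
        simp
    have hy0 : 0 ≤ ∑ a, y a := Finset.sum_nonneg fun a _ => (hy.1 a).1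
    have h1 := h.conc' (a := ∑ a, y a) (b := ∑ a, x a - 1) hy0 (by omega)
      (by have := hx.2; omega)
    rw [sub_add_cancel] at h1
    linarith

end SAG
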