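import Pool.Agent.SAG.Defs

/-!
# The theory of one agent
-/

namespace SAG

open SAQ Finset

variable {A : Type} [Fintype A] {K : ℕ} {β : A → ℕ → ℤ} {c : A → ℕ → ℝ} {C : ℤ} {ψ : ℤ → ℝ}

omit [Fintype A] in
theorem AggOK.le (h : AggOK K β c C ψ) (a : A) {p q : ℕ} (hpq : p ≤ q) (hq : q ≤ K) :
    β a p ≤ β a q := by
  induction q, hpq using Nat.le_induction with
  | base => exact le_rfl
  | succ q hpq ih => exact (ih (by omega)).trans (h.mono a q (by omega))

omit [Fintype A] in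
theorem AggOK.antiK (h : AggOK K β c C ψ) (a : A) {p q : ℕ} (hpq : p ≤ q) (hq : q < K) :
    c a q ≤ c a p := by
  induction q, hpq using Nat.le_induction with
  | base => exact le_rfl
  | succ q hpq ih => exact (h.anti a q hq).trans (ih (by omega))

omit [Fintype A] in
theorem AggOK.nonneg (h : AggOK K β c C ψ) (a : A) {p : ℕ} (hp : p ≤ K) : 0 ≤ β a p := by
  rw [← h.zero a]
  exact h.le a (Nat.zero_le _) hp

omit [Fintype A] in
theorem AggOK.conc' (h : AggOK K β c C ψ) {a b : ℤ} (ha : 0 ≤ a) (hab : a ≤ b) (hb : b + 1 ≤ C) :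
    ψ (b + 1) - ψ b ≤ ψ (a + 1) - ψ a := by
  revert hb
  refine Int.leInduction (m := a) (motive := fun b _ => b + 1 ≤ C →
    ψ (b + 1) - ψ b ≤ ψ (a + 1) - ψ a) ?_ ?_ b hab
  · intro _
    exact le_rfl
  · intro n hn ih hb
    have h1 := h.conc n (by omega) (by omega)
    have h2 := ih (by omega)
    have e : n + 1 + 1 = n + 2 := by ring
    rw [e]
    linarith

omit [Fintype A] in
theorem AggOK.down (h : AggOK K β c C ψ) (S : ℤ) (hS : S ≤ C) (n : ℕ) (hn : (n : ℤ) ≤ S) :
    (n : ℝ) * (ψ S - ψ (S - 1)) ≤ ψ S - ψ (S - n) := by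
  induction n with
  | zero => simp
  | succ n ih =>
    have h1 := ih (by push_cast at hn; omega)
    have h2 := h.conc' (a := S - (n + 1 : ℕ)) (b := S - 1) (by push_cast; push_cast at hn; omega)
      (by push_cast; omega) (by omega)
    have e1 : S - 1 + 1 = S := by ring
    have e2 : S - ((n + 1 : ℕ) : ℤ) + 1 = S - n := by push_cast; ring
    rw [e1, e2] at h2
    push_cast
    push_cast at h2
    linarith

omit [Fintype A] in
theorem AggOK.up (h : AggOK K β c C ψ) (S : ℤ) (hS : 0 ≤ S) (n : ℕ) (hn : S + n ≤ C) :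
    ψ (S + n) - ψ S ≤ (n : ℝ) * (ψ (S + 1) - ψ S) := by
  induction n with
  | zero => simp
  | succ n ih =>
    have h1 := ih (by push_cast at hn; omega)
    have h2 := h.conc' (a := S) (b := S + n) hS (by omega) (by push_cast at hn; omega)
    have e1 : S + ((n + 1 : ℕ) : ℤ) = S + n + 1 := by push_cast; ring
    rw [e1]
    push_cast
    linarith

/-! ### Portions -/

theorem portion_mono {β : ℕ → ℤ} {p : ℕ} (hβ : β p ≤ β (p + 1)) {s t : ℤ} (h : s ≤ t) :
    portion β p s ≤ portion β p t := by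
  unfold portion
  omega

theorem portion_le {β : ℕ → ℤ} {p : ℕ} (hβ : β p ≤ β (p + 1)) (t : ℤ) :
    portion β p t ≤ β (p + 1) - β p := by
  unfold portion
  omega

theorem portion_nonneg {β : ℕ → ℤ} {p : ℕ} (hβ : β p ≤ β (p + 1)) (t : ℤ) :
    0 ≤ portion β p t := by
  unfold portion
  omega

theorem sum_portion {β : ℕ → ℤ} {K : ℕ} (h0 : β 0 = 0) {t : ℤ} (ht : 0 ≤ t) (htK : t ≤ β K) :
    ∑ p : Fin K, portion β p t = t := by
  rw [Fin.sum_univ_eq_sum_range (fun p => portion β p t) K]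
  unfold portion
  rw [Finset.sum_range_sub (fun p => min t (β p)) K, h0]
  omega

/-! ### The number of profitable totals -/

open Classical in
/-- The number of profitable totals for the slope `x`. -/
noncomputable def cnt (C : ℤ) (ψ : ℤ → ℝ) (x : ℝ) : ℤ :=
  (((Icc 1 C).filter fun s => Acc ψ x s).card : ℤ)

theorem Acc.mono {x x' : ℝ} {s : ℤ} (h : Acc ψ x s) (hx : x ≤ x') : Acc ψ x' s := by
  unfold Acc at *
  linarith

omit [Fintype A] in
theorem acc_down (h : AggOK K β c C ψ) {x : ℝ} {s t : ℤ} (hs : 1 ≤ s) (hst : s ≤ t) (ht : t ≤ C)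
    (ha : Acc ψ x t) : Acc ψ x s := by
  have h1 := h.conc' (a := s - 1) (b := t - 1) (by omega) (by omega) (by omega)
  simp only [sub_add_cancel] at h1
  unfold Acc at *
  linarith

omit [Fintype A] in
theorem le_cnt (h : AggOK K β c C ψ) {x : ℝ} {s : ℤ} (hs : 1 ≤ s) (hC : s ≤ C)
    (ha : Acc ψ x s) : s ≤ cnt C ψ x := by
  classical
  have h1 : Icc 1 s ⊆ (Icc 1 C).filter fun s => Acc ψ x s := by
    intro t ht
    rw [mem_Icc] at ht
    rw [mem_filter, mem_Icc]
    exact ⟨⟨ht.1, ht.2.trans hC⟩, acc_down h ht.1 ht.2 hC ha⟩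
  have h2 := card_le_card h1
  rw [Int.card_Icc] at h2
  unfold cnt
  omega

omit [Fintype A] in
theorem acc_of_le_cnt (h : AggOK K β c C ψ) {x : ℝ} {s : ℤ} (hs : 1 ≤ s)
    (hle : s ≤ cnt C ψ x) : Acc ψ x s := by
  classical
  by_contra hn
  have h1 : ((Icc 1 C).filter fun s => Acc ψ x s) ⊆ Icc 1 (s - 1) := by
    intro t ht
    rw [mem_filter, mem_Icc] at ht
    rw [mem_Icc]
    refine ⟨ht.1.1, ?_⟩
    by_contra h3
    exact hn (acc_down h hs (by omega) ht.1.2 ht.2)
  have h2 := card_le_card h1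
  rw [Int.card_Icc] at h2
  unfold cnt at hle
  omega

theorem cnt_mono (C : ℤ) {x x' : ℝ} (hx : x ≤ x') : cnt C ψ x ≤ cnt C ψ x' := by
  classical
  unfold cnt
  exact_mod_cast card_le_card (fun t ht => by
    rw [mem_filter] at ht ⊢
    exact ⟨ht.1, ht.2.mono hx⟩)

omit [Fintype A] in
theorem dum_nonneg {ρ : A × Fin K → ℕ} (e : A × Fin K) : 0 ≤ dum c C ψ ρ e := by
  unfold dum
  positivity

theorem sum_dum (h : AggOK K β c C ψ) {ρ : A × Fin K → ℕ} (hr : Rk c ρ) (e : A × Fin K) :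
    ∑ e' ∈ univ.filter (fun e' => ρ e' ≤ ρ e), dum c C ψ ρ e' = C - cnt C ψ (c e.1 e.2) := by
  classical
  set S : A × Fin K → Finset ℤ := fun e => (Icc 1 C).filter fun s => ¬ Acc ψ (c e.1 e.2) s ∧
    ∀ e', ρ e' < ρ e → Acc ψ (c e'.1 e'.2) s with hS
  have hdum : ∀ e, dum c C ψ ρ e = ((S e).card : ℤ) := fun e => by
    unfold dum
    convert rfl
  have hdis : ∀ e1 e2 : A × Fin K, ρ e1 < ρ e2 → Disjoint (S e1) (S e2) := by
    intro e1 e2 hlt
    rw [Finset.disjoint_left]
    intro s h1 h2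
    simp only [hS, mem_filter] at h1 h2
    exact h1.2.1 (h2.2.2 e1 hlt)
  have h1 : ∑ e' ∈ univ.filter (fun e' => ρ e' ≤ ρ e), ((S e').card : ℤ) =
      (((univ.filter (fun e' => ρ e' ≤ ρ e)).biUnion S).card : ℤ) := by
    rw [Finset.card_biUnion]
    · push_cast
      rfl
    · intro e1 _ e2 _ hne
      rcases lt_trichotomy (ρ e1) (ρ e2) with hlt | heq | hgt
      · exact hdis _ _ hlt
      · exact absurd (hr.inj heq) hne
      · exact (hdis _ _ hgt).symm
  have h2 : (univ.filter (fun e' => ρ e' ≤ ρ e)).biUnion S =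
      (Icc 1 C).filter fun s => ¬ Acc ψ (c e.1 e.2) s := by
    ext s
    simp only [mem_biUnion, mem_filter, mem_univ, true_and, hS]
    constructor
    · rintro ⟨e', hle, hs, hn, -⟩
      exact ⟨hs, fun ha => hn (ha.mono (hr.anti _ _ hle))⟩
    · rintro ⟨hs, hn⟩
      obtain ⟨e', he', hmin⟩ := Finset.exists_min_image
        (univ.filter fun e' : A × Fin K => ¬ Acc ψ (c e'.1 e'.2) s) ρ
        ⟨e, by simp only [mem_filter, mem_univ, true_and]; exact hn⟩
      simp only [mem_filter, mem_univ, true_and] at he' hmin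
      refine ⟨e', hmin e hn, hs, he', fun e'' hlt => ?_⟩
      by_contra hna
      exact absurd (hmin e'' hna) (by omega)
  have h3 := Finset.card_filter_add_card_filter_not (s := Icc (1 : ℤ) C)
    (fun s => Acc ψ (c e.1 e.2) s)
  rw [Int.card_Icc] at h3
  simp only [hdum]
  rw [h1, h2]
  have hC := h.C0
  unfold cnt
  omega

/-- The amount of the items at least as good as `e`. -/
def pre (ρ : A × Fin K → ℕ) (z : A × Fin K → ℤ) (e : A × Fin K) : ℤ :=
  ∑ e' ∈ univ.filter (fun e' => ρ e' ≤ ρ e), z e'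

theorem stepA (h : AggOK K β c C ψ) {ρ : A × Fin K → ℕ} (hr : Rk c ρ) {z zd : A × Fin K → ℤ}
    (hz : ∀ e, 0 ≤ z e) (hzd : ∀ e, 0 ≤ zd e) (hd : ∀ e, zd e ≤ dum c C ψ ρ e)
    (htot : ∑ e, z e + ∑ e, zd e ≤ C)
    (hst : ∀ e, zd e = dum c C ψ ρ e ∨
      ∑ e' ∈ univ.filter (fun e' => ρ e' < ρ e), z e' + pre ρ zd e = C) :
    (∀ e, 0 < z e → pre ρ z e ≤ cnt C ψ (c e.1 e.2)) ∧
    ∀ e, pre ρ z e + pre ρ zd e = C → cnt C ψ (c e.1 e.2) ≤ pre ρ z e := by
  classical
  have hsub : ∀ (w : A × Fin K → ℤ), (∀ e, 0 ≤ w e) → ∀ s : Finset (A × Fin K),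
      ∑ e ∈ s, w e ≤ ∑ e, w e := fun w hw s =>
    Finset.sum_le_sum_of_subset_of_nonneg (subset_univ s) (fun e _ _ => hw e)
  refine ⟨fun e he => ?_, fun e he => ?_⟩
  · have hfull : ∀ e' ∈ univ.filter (fun e' => ρ e' ≤ ρ e), zd e' = dum c C ψ ρ e' := by
      intro e' he'
      rw [mem_filter] at he'
      rcases hst e' with h1 | h1
      · exact h1
      · exfalso
        have h2 : z e + ∑ e'' ∈ univ.filter (fun e'' => ρ e'' < ρ e'), z e'' ≤ ∑ e, z e := by
          rw [← Finset.sum_insert (a := e)]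
          · exact hsub z hz _
          · rw [mem_filter]
            intro h3
            have := he'.2
            omega
        have h3 : pre ρ zd e' ≤ ∑ e, zd e := hsub zd hzd _
        omega
    have h1 : pre ρ zd e = C - cnt C ψ (c e.1 e.2) := by
      rw [← sum_dum h hr e]
      exact Finset.sum_congr rfl hfull
    have h2 : pre ρ z e ≤ ∑ e, z e := hsub z hz _
    have h3 : pre ρ zd e ≤ ∑ e, zd e := hsub zd hzd _
    omega
  · have h1 : pre ρ zd e ≤ C - cnt C ψ (c e.1 e.2) := by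
      rw [← sum_dum h hr e]
      exact Finset.sum_le_sum fun e' _ => hd e'
    omega

/-! ### Filled pieces -/

omit [Fintype A] in
theorem min_tot (h : AggOK K β c C ψ) {z : A × Fin K → ℤ} (hz : ∀ e, 0 ≤ z e)
    (hle : ∀ a (p : Fin K), z (a, p) ≤ β a (p + 1) - β a p)
    (hfill : ∀ a (p q : Fin K), p < q → z (a, p) < β a (p + 1) - β a p → z (a, q) = 0)
    (a : A) (p : ℕ) (hp : p ≤ K) :
    min (∑ q, z (a, q)) (β a p) =
      ∑ q ∈ range p, (if hq : q < K then z (a, ⟨q, hq⟩) else 0) := by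
  set ζ : ℕ → ℤ := fun q => if hq : q < K then z (a, ⟨q, hq⟩) else 0 with hζ
  have hζz : ∀ q : Fin K, z (a, q) = ζ q := fun q => by
    simp only [hζ, q.2, dite_true]
  have hζ0 : ∀ q, 0 ≤ ζ q := fun q => by
    simp only [hζ]
    split_ifs
    · exact hz _
    · exact le_rfl
  have hζle : ∀ q, q < K → ζ q ≤ β a (q + 1) - β a q := fun q hq => by
    simp only [hζ, hq, dite_true]
    exact hle a ⟨q, hq⟩
  have htot : ∑ q : Fin K, z (a, q) = ∑ q ∈ range K, ζ q := by
    rw [← Fin.sum_univ_eq_sum_range]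
    exact Finset.sum_congr rfl fun q _ => hζz q
  have hbound : ∑ q ∈ range p, ζ q ≤ β a p := by
    have h1 : ∑ q ∈ range p, ζ q ≤ ∑ q ∈ range p, (β a (q + 1) - β a q) :=
      Finset.sum_le_sum fun q hq => hζle q (by rw [mem_range] at hq; omega)
    rw [Finset.sum_range_sub (fun q => β a q), h.zero a] at h1
    omega
  rw [htot]
  change min (∑ q ∈ range K, ζ q) (β a p) = ∑ q ∈ range p, ζ q
  by_cases hall : ∀ q, q < p → ζ q = β a (q + 1) - β a q
  · have h1 : ∑ q ∈ range p, ζ q = β a p := by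
      rw [Finset.sum_congr rfl (fun q hq => hall q (mem_range.1 hq)),
        Finset.sum_range_sub (fun q => β a q), h.zero a]
      omega
    have h2 : ∑ q ∈ range p, ζ q ≤ ∑ q ∈ range K, ζ q :=
      Finset.sum_le_sum_of_subset_of_nonneg (range_subset_range.2 hp) (fun q _ _ => hζ0 q)
    omega
  · push Not at hall
    obtain ⟨q0, hq0, hne⟩ := hall
    have hlt : ζ q0 < β a (q0 + 1) - β a q0 := lt_of_le_of_ne (hζle q0 (by omega)) hne
    have hzero : ∀ q, q0 < q → ζ q = 0 := by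
      intro q hq
      by_cases hqK : q < K
      · have := hfill a ⟨q0, by omega⟩ ⟨q, hqK⟩ (by rw [Fin.mk_lt_mk]; exact hq)
          (by rw [hζz]; exact hlt)
        rw [hζz] at this
        exact this
      · simp only [hζ, hqK, dite_false]
    have h1 : ∑ q ∈ range K, ζ q = ∑ q ∈ range p, ζ q := by
      symm
      apply Finset.sum_subset (range_subset_range.2 hp)
      intro q _ hq
      rw [mem_range, not_lt] at hq
      exact hzero q (by omega)
    rw [h1]
    omega

omit [Fintype A] in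
theorem portion_tot (h : AggOK K β c C ψ) {z : A × Fin K → ℤ} (hz : ∀ e, 0 ≤ z e)
    (hle : ∀ a (p : Fin K), z (a, p) ≤ β a (p + 1) - β a p)
    (hfill : ∀ a (p q : Fin K), p < q → z (a, p) < β a (p + 1) - β a p → z (a, q) = 0)
    (a : A) (p : Fin K) : portion (β a) p (∑ q, z (a, q)) = z (a, p) := by
  unfold portion
  rw [min_tot h hz hle hfill a (p + 1) (by have := p.2; omega),
    min_tot h hz hle hfill a p (by have := p.2; omega), Finset.sum_range_succ]
  simp only [p.2, dite_true]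
  ring_nf

omit [Fintype A] in
theorem tot_nonneg {z : A × Fin K → ℤ} (hz : ∀ e, 0 ≤ z e) (a : A) : 0 ≤ ∑ q, z (a, q) :=
  Finset.sum_nonneg fun _ _ => hz _

omit [Fintype A] in
theorem tot_le (h : AggOK K β c C ψ) {z : A × Fin K → ℤ}
    (hle : ∀ a (p : Fin K), z (a, p) ≤ β a (p + 1) - β a p) (a : A) :
    ∑ q, z (a, q) ≤ β a K := by
  have h1 : ∑ q : Fin K, z (a, q) ≤ ∑ q : Fin K, (β a (q + 1) - β a q) :=
    Finset.sum_le_sum fun q _ => hle a q
  rw [Fin.sum_univ_eq_sum_range (fun q => β a (q + 1) - β a q),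
    Finset.sum_range_sub (fun q => β a q), h.zero a] at h1
  omega

theorem sum_tot (z : A × Fin K → ℤ) : ∑ a, ∑ q, z (a, q) = ∑ e, z e := by
  rw [Fintype.sum_prod_type]

end SAG
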