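import Pool.Agent.SAQ.Defs

/-!
# Markets with piecewise linear values and a concave function of the total

Definitions for the theorem that stable allocations of these markets are stable allocations of an
explicit ordinal (Baïou–Balinski) stable allocation problem.
-/

namespace SAG

open SAQ Finset

/-- The number of units of `t` lying in the piece `(β p, β (p+1)]`. -/
def portion (β : ℕ → ℤ) (p : ℕ) (t : ℤ) : ℤ := min t (β (p + 1)) - min t (β p)

/-- The piecewise linear function with breakpoints `β` and slopes `c` on `K` pieces. -/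
noncomputable def pw (K : ℕ) (β : ℕ → ℤ) (c : ℕ → ℝ) (t : ℤ) : ℝ :=
  ∑ p : Fin K, c p * (portion β p t : ℝ)

open Classical in
/-- The value function `∑ φ_a(y_a) + ψ(∑ y_a)` on `0 ≤ y_a ≤ β_a(K)`, `∑ y_a ≤ C`. -/
noncomputable def agg {A : Type} [Fintype A] (K : ℕ) (β : A → ℕ → ℤ) (c : A → ℕ → ℝ) (C : ℤ)
    (ψ : ℤ → ℝ) (y : A → ℤ) : WithBot ℝ :=
  if (∀ a, 0 ≤ y a ∧ y a ≤ β a K) ∧ ∑ a, y a ≤ C then
    (((∑ a, pw K (β a) (c a) (y a)) + ψ (∑ a, y a) : ℝ) : WithBot ℝ)
  else ⊥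

/-- The conditions on the data of one agent: breakpoints start at `0` and are nondecreasing, slopes
are nonincreasing, `ψ` is concave on `[0, C]`. -/
structure AggOK {A : Type} (K : ℕ) (β : A → ℕ → ℤ) (c : A → ℕ → ℝ) (C : ℤ) (ψ : ℤ → ℝ) :
    Prop where
  zero : ∀ a, β a 0 = 0
  mono : ∀ a p, p < K → β a p ≤ β a (p + 1)
  anti : ∀ a p, p + 1 < K → c a (p + 1) ≤ c a p
  C0 : 0 ≤ C
  conc : ∀ s, 0 ≤ s → s + 2 ≤ C → ψ (s + 2) - ψ (s + 1) ≤ ψ (s + 1) - ψ s

/-- The `s`-th unit is profitable when it has slope `c`. -/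
def Acc (ψ : ℤ → ℝ) (c : ℝ) (s : ℤ) : Prop := 0 < c + ψ s - ψ (s - 1)

/-- A ranking of the items `(a, p)` of one agent: injective, by nonincreasing slope, the pieces of
one partner in their order. -/
structure Rk {A : Type} {K : ℕ} (c : A → ℕ → ℝ) (ρ : A × Fin K → ℕ) : Prop where
  inj : Function.Injective ρ
  anti : ∀ e e', ρ e ≤ ρ e' → c e'.1 e'.2 ≤ c e.1 e.2
  piece : ∀ a (p q : Fin K), p < q → ρ (a, p) < ρ (a, q)

open Classical in
/-- The number of totals `s ∈ [1, C]` whose first unprofitable item is `e`. -/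
noncomputable def dum {A : Type} {K : ℕ} (c : A → ℕ → ℝ) (C : ℤ) (ψ : ℤ → ℝ)
    (ρ : A × Fin K → ℕ) (e : A × Fin K) : ℤ :=
  (((Icc 1 C).filter fun s => ¬ Acc ψ (c e.1 e.2) s ∧
    ∀ e', ρ e' < ρ e → Acc ψ (c e'.1 e'.2) s).card : ℤ)

/-- The data of a market. `K` pieces for every pair; `β i j` the common breakpoints of the pair
`(i, j)`, `cM i j`, `cW j i` the slopes of the two agents, `CM`, `CW` bounds on the totals, `ψM`,
`ψW` the functions of the total. -/
structure Mkt (M W : Type) where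
  K : ℕ
  β : M → W → ℕ → ℤ
  cM : M → W → ℕ → ℝ
  cW : W → M → ℕ → ℝ
  CM : M → ℤ
  CW : W → ℤ
  ψM : M → ℤ → ℝ
  ψW : W → ℤ → ℝ

/-- An ordinal stable allocation problem (Baïou–Balinski, parallel edges allowed): edges `E` with
ends `l`, `r`, capacities `cap`, quotas `qA`, `qB` of the agents, ranks `rA`, `rB` of the edges at
their ends (smaller is better). -/
structure Ord (A B E : Type) where
  l : E → A
  r : E → B
  cap : E → ℤ
  qA : A → ℤ
  qB : B → ℤ
  rA : E → ℕ
  rB : E → ℕ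

variable {A B E : Type} [Fintype E]

/-- The ranks at every agent are strict. -/
def Ord.Strict (I : Ord A B E) : Prop :=
  (∀ e e', I.l e = I.l e' → I.rA e = I.rA e' → e = e') ∧
  ∀ e e', I.r e = I.r e' → I.rB e = I.rB e' → e = e'

open Classical in
/-- `z` is a stable allocation of the ordinal problem: it is feasible, and every edge is saturated
or dominated at one of its ends (the edges at least as good use up the quota). -/
def Ord.Stable (I : Ord A B E) (z : E → ℤ) : Prop :=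
  (∀ e, 0 ≤ z e ∧ z e ≤ I.cap e) ∧
  (∀ a, ∑ e ∈ univ.filter (fun e => I.l e = a), z e ≤ I.qA a) ∧
  (∀ b, ∑ e ∈ univ.filter (fun e => I.r e = b), z e ≤ I.qB b) ∧
  ∀ e, z e = I.cap e ∨
    ∑ e' ∈ univ.filter (fun e' => I.l e' = I.l e ∧ I.rA e' ≤ I.rA e), z e' = I.qA (I.l e) ∨
    ∑ e' ∈ univ.filter (fun e' => I.r e' = I.r e ∧ I.rB e' ≤ I.rB e), z e' = I.qB (I.r e)

variable {M W : Type} [Fintype M] [Fintype W]

/-- The items of a market: a pair together with a piece. -/
abbrev Mkt.Item (d : Mkt M W) : Type := M × W × Fin d.K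

/-- The value functions. -/
noncomputable def Mkt.fM (d : Mkt M W) (i : M) : (W → ℤ) → WithBot ℝ :=
  agg d.K (d.β i) (d.cM i) (d.CM i) (d.ψM i)

/-- The value functions. -/
noncomputable def Mkt.fW (d : Mkt M W) (j : W) : (M → ℤ) → WithBot ℝ :=
  agg d.K (fun i => d.β i j) (d.cW j) (d.CW j) (d.ψW j)

/-- The conditions on a market. -/
structure Mkt.OK (d : Mkt M W) : Prop where
  okM : ∀ i, AggOK d.K (d.β i) (d.cM i) (d.CM i) (d.ψM i)
  okW : ∀ j, AggOK d.K (fun i => d.β i j) (d.cW j) (d.CW j) (d.ψW j)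

/-- Rankings of the items of all agents. -/
structure Mkt.Ranks (d : Mkt M W) (ρM : M → W × Fin d.K → ℕ) (ρW : W → M × Fin d.K → ℕ) :
    Prop where
  rkM : ∀ i, Rk (d.cM i) (ρM i)
  rkW : ∀ j, Rk (d.cW j) (ρW j)

/-- The ordinal problem of a market. Its edges are the items `(i, j, p)`, joining `i` and `j`, with
the length of the piece as capacity; for every item one dummy edge from `i` to a new agent; and for
every item one dummy edge from a new agent to `j`. The dummy edge comes immediately before its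
item. -/
noncomputable def Mkt.ord (d : Mkt M W) (ρM : M → W × Fin d.K → ℕ) (ρW : W → M × Fin d.K → ℕ) :
    Ord (M ⊕ d.Item) (W ⊕ d.Item) (d.Item ⊕ d.Item ⊕ d.Item) where
  l
    | Sum.inl (i, _, _) => Sum.inl i
    | Sum.inr (Sum.inl (i, _, _)) => Sum.inl i
    | Sum.inr (Sum.inr e) => Sum.inr e
  r
    | Sum.inl (_, j, _) => Sum.inl j
    | Sum.inr (Sum.inl e) => Sum.inr e
    | Sum.inr (Sum.inr (_, j, _)) => Sum.inl j
  cap
    | Sum.inl (i, j, p) => d.β i j (p + 1) - d.β i j p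
    | Sum.inr (Sum.inl (i, j, p)) => dum (d.cM i) (d.CM i) (d.ψM i) (ρM i) (j, p)
    | Sum.inr (Sum.inr (i, j, p)) => dum (d.cW j) (d.CW j) (d.ψW j) (ρW j) (i, p)
  qA
    | Sum.inl i => d.CM i
    | Sum.inr (i, j, p) => dum (d.cW j) (d.CW j) (d.ψW j) (ρW j) (i, p)
  qB
    | Sum.inl j => d.CW j
    | Sum.inr (i, j, p) => dum (d.cM i) (d.CM i) (d.ψM i) (ρM i) (j, p)
  rA
    | Sum.inl (i, j, p) => 2 * ρM i (j, p) + 1
    | Sum.inr (Sum.inl (i, j, p)) => 2 * ρM i (j, p)
    | Sum.inr (Sum.inr _) => 0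
  rB
    | Sum.inl (i, j, p) => 2 * ρW j (i, p) + 1
    | Sum.inr (Sum.inl _) => 0
    | Sum.inr (Sum.inr (i, j, p)) => 2 * ρW j (i, p)

end SAG
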