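import Pool.Agent.SAG.Ranks

/-!
# Ordinal problems have stable allocations (Baïou–Balinski)
-/

namespace SAG

open SAQ Finset

variable {A E : Type} [Fintype E]

open Classical in
/-- The amount of the edges at the same agent that are better than `e`. -/
noncomputable def lo (l : E → A) (r : E → ℕ) (u : E → ℤ) (e : E) : ℤ :=
  ∑ e' ∈ univ.filter (fun e' => l e' = l e ∧ r e' < r e), u e'

/-- The choice function of one side. -/
noncomputable def ch (l : E → A) (r : E → ℕ) (q : A → ℤ) (u : E → ℤ) (e : E) : ℤ :=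
  min (u e) (max 0 (q (l e) - lo l r u e))

theorem lo_mono (l : E → A) (r : E → ℕ) {u v : E → ℤ} (h : u ≤ v) (e : E) :
    lo l r u e ≤ lo l r v e :=
  Finset.sum_le_sum fun e' _ => h e'

theorem ch_le (l : E → A) (r : E → ℕ) (q : A → ℤ) (u : E → ℤ) (e : E) : ch l r q u e ≤ u e :=
  min_le_left _ _

theorem ch_nonneg (l : E → A) (r : E → ℕ) (q : A → ℤ) {u : E → ℤ} (hu : 0 ≤ u) (e : E) :
    0 ≤ ch l r q u e :=
  le_min (hu e) (le_max_left _ _)

/-- The rejected amounts are monotone. -/
theorem rej_mono (l : E → A) (r : E → ℕ) (q : A → ℤ) {u v : E → ℤ} (h : u ≤ v)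
    (e : E) : u e - ch l r q u e ≤ v e - ch l r q v e := by
  have h1 := lo_mono l r h e
  have h2 : u e ≤ v e := h e
  unfold ch
  omega

open Classical in
theorem sum_ch (l : E → A) (r : E → ℕ) (hs : ∀ e e', l e = l e' → r e = r e' → e = e')
    (q : A → ℤ) (hq : ∀ a, 0 ≤ q a) {u : E → ℤ} (hu : 0 ≤ u) (a : A) (n : ℕ) :
    ∑ e ∈ univ.filter (fun e => l e = a ∧ r e < n), ch l r q u e =
      min (q a) (∑ e ∈ univ.filter (fun e => l e = a ∧ r e < n), u e) := by
  induction n with
  | zero =>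
    have := hq a
    simp [this]
  | succ n ih =>
    have hsplit : ∀ w : E → ℤ, ∑ e ∈ univ.filter (fun e => l e = a ∧ r e < n + 1), w e =
        ∑ e ∈ univ.filter (fun e => l e = a ∧ r e < n), w e +
        ∑ e ∈ univ.filter (fun e => l e = a ∧ r e = n), w e := by
      intro w
      rw [← Finset.sum_union]
      · apply Finset.sum_congr _ fun _ _ => rfl
        ext e
        simp only [mem_filter, mem_univ, true_and, mem_union]
        constructor
        · rintro ⟨h1, h2⟩
          rcases Nat.lt_succ_iff_lt_or_eq.1 h2 with h3 | h3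
          · exact Or.inl ⟨h1, h3⟩
          · exact Or.inr ⟨h1, h3⟩
        · rintro (⟨h1, h2⟩ | ⟨h1, h2⟩)
          · exact ⟨h1, by omega⟩
          · exact ⟨h1, by omega⟩
      · rw [Finset.disjoint_left]
        intro e h1 h2
        rw [mem_filter] at h1 h2
        omega
    rw [hsplit, hsplit, ih]
    by_cases hex : ∃ e, l e = a ∧ r e = n
    · obtain ⟨e, he, hn⟩ := hex
      have hsing : univ.filter (fun e => l e = a ∧ r e = n) = {e} := by
        ext e'
        simp only [mem_filter, mem_univ, true_and, mem_singleton]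
        constructor
        · rintro ⟨h1, h2⟩
          exact hs _ _ (h1.trans he.symm) (h2.trans hn.symm)
        · rintro rfl
          exact ⟨he, hn⟩
      rw [hsing, Finset.sum_singleton, Finset.sum_singleton]
      have hlo : lo l r u e = ∑ e' ∈ univ.filter (fun e' => l e' = a ∧ r e' < n), u e' := by
        unfold lo
        rw [he, hn]
      have h1 : ch l r q u e = min (u e) (max 0 (q a -
          ∑ e' ∈ univ.filter (fun e' => l e' = a ∧ r e' < n), u e')) := by
        unfold ch
        rw [hlo, he]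
      rw [h1]
      have h2 := hu e
      have h3 : (0 : ℤ) ≤ u e := h2
      have h4 := hq a
      omega
    · have hemp : univ.filter (fun e => l e = a ∧ r e = n) = ∅ := by
        rw [Finset.filter_eq_empty_iff]
        intro e _ he
        exact hex ⟨e, he⟩
      rw [hemp]
      simp

open Classical in
theorem sum_ch_le (l : E → A) (r : E → ℕ) (hs : ∀ e e', l e = l e' → r e = r e' → e = e')
    (q : A → ℤ) (hq : ∀ a, 0 ≤ q a) {u : E → ℤ} (hu : 0 ≤ u) (a : A) :
    ∑ e ∈ univ.filter (fun e => l e = a), ch l r q u e ≤ q a := by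
  have h1 : univ.filter (fun e => l e = a) =
      univ.filter (fun e => l e = a ∧ r e < univ.sup r + 1) := by
    ext e
    simp only [mem_filter, mem_univ, true_and]
    exact ⟨fun h => ⟨h, Nat.lt_succ_of_le (Finset.le_sup (mem_univ e))⟩, fun h => h.1⟩
  rw [h1, sum_ch l r hs q hq hu]
  exact min_le_left _ _

open Classical in
theorem dominated (l : E → A) (r : E → ℕ) (hs : ∀ e e', l e = l e' → r e = r e' → e = e')
    (q : A → ℤ) (hq : ∀ a, 0 ≤ q a) {u : E → ℤ} (hu : 0 ≤ u) (e : E)
    (he : ch l r q u e < u e) :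
    ∑ e' ∈ univ.filter (fun e' => l e' = l e ∧ r e' ≤ r e), ch l r q u e' = q (l e) := by
  have h1 : univ.filter (fun e' => l e' = l e ∧ r e' ≤ r e) =
      univ.filter (fun e' => l e' = l e ∧ r e' < r e + 1) := by
    ext e'
    simp only [mem_filter, mem_univ, true_and, Nat.lt_succ_iff]
  rw [h1, sum_ch l r hs q hq hu]
  apply min_eq_left
  have h2 : u e + lo l r u e ≤
      ∑ e' ∈ univ.filter (fun e' => l e' = l e ∧ r e' < r e + 1), u e' := by
    unfold lo
    rw [← Finset.sum_insert (a := e)]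
    · refine Finset.sum_le_sum_of_subset_of_nonneg ?_ (fun e _ _ => hu e)
      intro f hf
      rw [mem_insert, mem_filter] at hf
      rw [mem_filter]
      refine ⟨mem_univ _, ?_⟩
      rcases hf with rfl | hf
      · exact ⟨rfl, by omega⟩
      · exact ⟨hf.2.1, by omega⟩
    · rw [mem_filter]
      intro h3
      omega
  unfold ch at he
  omega

/-- A monotone map of an integer box into itself has a fixed point. -/
theorem exists_fix (cap : E → ℤ) (hc : 0 ≤ cap) (F : (E → ℤ) → E → ℤ)
    (hF : ∀ u, 0 ≤ u → u ≤ cap → 0 ≤ F u ∧ F u ≤ cap)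
    (hm : ∀ u v, u ≤ v → F u ≤ F v) : ∃ u, 0 ≤ u ∧ u ≤ cap ∧ F u = u := by
  have key : ∀ (n : ℕ) (u : E → ℤ), 0 ≤ u → u ≤ cap → u ≤ F u →
      ∑ e, (cap e - u e) ≤ n → ∃ u, 0 ≤ u ∧ u ≤ cap ∧ F u = u := by
    intro n
    induction n with
    | zero =>
      intro u h0 h1 h2 h3
      refine ⟨u, h0, h1, ?_⟩
      have h4 : ∀ e ∈ univ, cap e - u e = 0 := by
        have h5 : ∑ e, (cap e - u e) = 0 :=
          le_antisymm (by exact_mod_cast h3) (Finset.sum_nonneg fun e _ => sub_nonneg.2 (h1 e))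
        exact (Finset.sum_eq_zero_iff_of_nonneg fun e _ => sub_nonneg.2 (h1 e)).1 h5
      funext e
      have h5 := h4 e (mem_univ e)
      have h6 : F u e ≤ cap e := (hF u h0 h1).2 e
      have h7 : u e ≤ F u e := h2 e
      omega
    | succ n ih =>
      intro u h0 h1 h2 h3
      by_cases h4 : F u = u
      · exact ⟨u, h0, h1, h4⟩
      · refine ih (F u) (hF u h0 h1).1 (hF u h0 h1).2 (hm _ _ h2) ?_
        have h5 : ∃ e, u e < F u e := by
          by_contra hno
          push Not at hno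
          exact h4 (le_antisymm hno h2)
        obtain ⟨e, he⟩ := h5
        have h6 : ∑ e, (cap e - F u e) < ∑ e, (cap e - u e) :=
          Finset.sum_lt_sum (fun e _ => sub_le_sub_left (h2 e) _)
            ⟨e, mem_univ e, sub_lt_sub_left he _⟩
        push_cast at h3
        omega
  have h0 : 0 ≤ ∑ e, (cap e - (0 : E → ℤ) e) :=
    Finset.sum_nonneg fun e _ => sub_nonneg.2 (hc e)
  exact key (∑ e, (cap e - (0 : E → ℤ) e)).toNat 0 le_rfl hc (hF 0 le_rfl hc).1
    (by rw [Int.toNat_of_nonneg h0])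

variable {B : Type}

theorem Ord.exists_stable (I : Ord A B E) (hs : I.Strict) (hc : ∀ e, 0 ≤ I.cap e)
    (hA : ∀ a, 0 ≤ I.qA a) (hB : ∀ b, 0 ≤ I.qB b) : ∃ z, I.Stable z := by
  classical
  set GA : (E → ℤ) → E → ℤ := fun u => I.cap - (u - ch I.l I.rA I.qA u) with hGA
  set GB : (E → ℤ) → E → ℤ := fun v => I.cap - (v - ch I.r I.rB I.qB v) with hGB
  have mA : ∀ u v, u ≤ v → GA v ≤ GA u := fun u v h e => by
    have := rej_mono I.l I.rA I.qA h e
    simp only [hGA, Pi.sub_apply]
    omega
  have mB : ∀ u v, u ≤ v → GB v ≤ GB u := fun u v h e => by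
    have := rej_mono I.r I.rB I.qB h e
    simp only [hGB, Pi.sub_apply]
    omega
  have bA : ∀ u, 0 ≤ u → u ≤ I.cap → 0 ≤ GA u ∧ GA u ≤ I.cap := fun u h0 h1 =>
    ⟨fun e => by
      have h2 := ch_nonneg I.l I.rA I.qA h0 e
      have h3 : u e ≤ I.cap e := h1 e
      simp only [hGA, Pi.sub_apply, Pi.zero_apply]
      omega, fun e => by
      have h2 := ch_le I.l I.rA I.qA u e
      simp only [hGA, Pi.sub_apply]
      omega⟩
  have bB : ∀ u, 0 ≤ u → u ≤ I.cap → 0 ≤ GB u ∧ GB u ≤ I.cap := fun u h0 h1 =>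
    ⟨fun e => by
      have h2 := ch_nonneg I.r I.rB I.qB h0 e
      have h3 : u e ≤ I.cap e := h1 e
      simp only [hGB, Pi.sub_apply, Pi.zero_apply]
      omega, fun e => by
      have h2 := ch_le I.r I.rB I.qB u e
      simp only [hGB, Pi.sub_apply]
      omega⟩
  obtain ⟨u, hu0, hu1, hu⟩ := exists_fix I.cap hc (fun u => GB (GA u))
    (fun u h0 h1 => bB _ (bA u h0 h1).1 (bA u h0 h1).2)
    (fun u v h => mB _ _ (mA _ _ h))
  set v := GA u with hv
  have hv0 : 0 ≤ v := (bA u hu0 hu1).1
  have eA : ∀ e, v e = I.cap e - (u e - ch I.l I.rA I.qA u e) := fun e => rfl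
  have eB : ∀ e, u e = I.cap e - (v e - ch I.r I.rB I.qB v e) := fun e => by
    have : GB v e = I.cap e - (v e - ch I.r I.rB I.qB v e) := rfl
    rw [← this]
    exact (congrFun hu e).symm
  have heq : ch I.l I.rA I.qA u = ch I.r I.rB I.qB v := by
    funext e
    have h1 := eA e
    have h2 := eB e
    omega
  refine ⟨ch I.l I.rA I.qA u, fun e => ⟨ch_nonneg _ _ _ hu0 e,
    (ch_le I.l I.rA I.qA u e).trans (hu1 e)⟩, fun a => ?_, fun b => ?_, fun e => ?_⟩
  · convert sum_ch_le I.l I.rA hs.1 I.qA hA hu0 a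
  · rw [heq]
    convert sum_ch_le I.r I.rB hs.2 I.qB hB hv0 b
  · by_cases h1 : ch I.l I.rA I.qA u e = I.cap e
    · exact Or.inl h1
    · right
      by_cases h2 : ch I.l I.rA I.qA u e < u e
      · left
        convert dominated I.l I.rA hs.1 I.qA hA hu0 e h2
      · right
        rw [heq]
        have h3 : ch I.r I.rB I.qB v e < v e := by
          rw [← heq]
          have h4 := eA e
          have h5 := ch_le I.l I.rA I.qA u e
          have h6 : u e ≤ I.cap e := hu1 e
          omega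
        convert dominated I.r I.rB hs.2 I.qB hB hv0 e h3

variable {M W : Type} [Fintype M] [Fintype W] {d : Mkt M W}

theorem exists_stable_ord (hd : d.OK) {ρM : M → W × Fin d.K → ℕ} {ρW : W → M × Fin d.K → ℕ}
    (hr : d.Ranks ρM ρW) : ∃ z, (d.ord ρM ρW).Stable z := by
  apply Ord.exists_stable _ (strict_ord hr)
  · rintro (⟨i, j, p⟩ | ⟨i, j, p⟩ | ⟨i, j, p⟩)
    · exact sub_nonneg.2 ((hd.okM i).mono j p p.2)
    · exact dum_nonneg _
    · exact dum_nonneg _
  · rintro (i | ⟨i, j, p⟩)
    · exact (hd.okM i).C0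
    · exact dum_nonneg _
  · rintro (j | ⟨i, j, p⟩)
    · exact (hd.okW j).C0
    · exact dum_nonneg _

end SAG
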