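import Pool.Agent.SAG.Main

/-!
# Rankings exist, and the ordinal problem is strict
-/

namespace SAG

open SAQ Finset

variable {A : Type} [Fintype A] {K : ℕ} {β : A → ℕ → ℤ} {c : A → ℕ → ℝ} {C : ℤ} {ψ : ℤ → ℝ}

/-- A sorting key of an item. -/
noncomputable def key (c : A → ℕ → ℝ) (e : A × Fin K) : ℝ ×ₗ ℕ :=
  toLex (-c e.1 e.2, ((finProdFinEquiv (Fintype.equivFin A e.1, e.2) : Fin _) : ℕ))

theorem key_inj (c : A → ℕ → ℝ) : Function.Injective (key (K := K) c) := by
  rintro ⟨a, p⟩ ⟨b, q⟩ h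
  have h1 := (Prod.ext_iff.1 (toLex.injective h)).2
  simp only at h1
  have h2 := finProdFinEquiv.injective (Fin.ext h1)
  rw [Prod.ext_iff] at h2
  have h3 := (Fintype.equivFin A).injective h2.1
  exact Prod.ext h3 h2.2

theorem key_le {c : A → ℕ → ℝ} {e e' : A × Fin K} (h : key c e ≤ key c e') :
    c e'.1 e'.2 ≤ c e.1 e.2 := by
  unfold key at h
  rw [Prod.Lex.toLex_le_toLex] at h
  rcases h with h | h
  · simp only at h
    linarith
  · simp only at h
    linarith [h.1]

theorem key_piece (h : AggOK K β c C ψ) (a : A) {p q : Fin K} (hpq : p < q) :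
    key c (a, p) < key c (a, q) := by
  unfold key
  rw [Prod.Lex.toLex_lt_toLex]
  have h1 : c a q ≤ c a p := h.antiK a (le_of_lt hpq) q.2
  rcases eq_or_lt_of_le h1 with h2 | h2
  · right
    refine ⟨by simp only; rw [h2], ?_⟩
    simp only [finProdFinEquiv_apply_val]
    have : (p : ℕ) < q := hpq
    omega
  · left
    simp only
    linarith

open Classical in
theorem exists_rk (h : AggOK K β c C ψ) : ∃ ρ : A × Fin K → ℕ, Rk c ρ := by
  set ρ : A × Fin K → ℕ := fun e => (univ.filter fun e' : A × Fin K => key c e' < key c e).card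
    with hρ
  have hlt : ∀ e e' : A × Fin K, key c e < key c e' → ρ e < ρ e' := by
    intro e e' hee
    apply Finset.card_lt_card
    rw [Finset.ssubset_iff_of_subset]
    · refine ⟨e, ?_, ?_⟩
      · rw [mem_filter]
        exact ⟨mem_univ _, hee⟩
      · rw [mem_filter]
        rintro ⟨-, h⟩
        exact lt_irrefl _ h
    · intro f hf
      rw [mem_filter] at hf ⊢
      exact ⟨mem_univ _, hf.2.trans hee⟩
  refine ⟨ρ, ⟨fun e e' hee => ?_, fun e e' hee => ?_, fun a p q hpq => hlt _ _ (key_piece h a hpq)⟩⟩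
  · apply key_inj c
    rcases lt_trichotomy (key c e) (key c e') with h1 | h1 | h1
    · exact absurd (hlt _ _ h1) (by omega)
    · exact h1
    · exact absurd (hlt _ _ h1) (by omega)
  · apply key_le
    by_contra hn
    exact absurd (hlt _ _ (not_le.1 hn)) (by omega)

variable {M W : Type} [Fintype M] [Fintype W] {d : Mkt M W}

theorem exists_ranks (hd : d.OK) : ∃ ρM ρW, d.Ranks ρM ρW := by
  choose ρM hM using fun i => exists_rk (hd.okM i)
  choose ρW hW using fun j => exists_rk (hd.okW j)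
  exact ⟨ρM, ρW, hM, hW⟩

omit [Fintype M] [Fintype W] in
theorem strict_ord {ρM : M → W × Fin d.K → ℕ} {ρW : W → M × Fin d.K → ℕ}
    (hr : d.Ranks ρM ρW) : (d.ord ρM ρW).Strict := by
  constructor
  · rintro (⟨i, j, p⟩ | ⟨i, j, p⟩ | ⟨i, j, p⟩) (⟨i', j', p'⟩ | ⟨i', j', p'⟩ | ⟨i', j', p'⟩) h1 h2
    · simp only [Mkt.ord, Sum.inl.injEq] at h1 h2
      subst h1
      have := (hr.rkM i).inj (show ρM i (j, p) = ρM i (j', p') by omega)
      rw [this]
    · simp only [Mkt.ord, Sum.inl.injEq] at h1 h2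
      omega
    · simp [Mkt.ord] at h1
    · simp only [Mkt.ord, Sum.inl.injEq] at h1 h2
      omega
    · simp only [Mkt.ord, Sum.inl.injEq] at h1 h2
      subst h1
      have := (hr.rkM i).inj (show ρM i (j, p) = ρM i (j', p') by omega)
      rw [this]
    · simp [Mkt.ord] at h1
    · simp [Mkt.ord] at h1
    · simp [Mkt.ord] at h1
    · simp only [Mkt.ord, Sum.inr.injEq] at h1
      rw [h1]
  · rintro (⟨i, j, p⟩ | ⟨i, j, p⟩ | ⟨i, j, p⟩) (⟨i', j', p'⟩ | ⟨i', j', p'⟩ | ⟨i', j', p'⟩) h1 h2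
    · simp only [Mkt.ord, Sum.inl.injEq] at h1 h2
      subst h1
      have := (hr.rkW j).inj (show ρW j (i, p) = ρW j (i', p') by omega)
      rw [Prod.ext_iff] at this
      simp only at this
      rw [this.1, this.2]
    · simp [Mkt.ord] at h1
    · simp only [Mkt.ord, Sum.inl.injEq] at h1 h2
      omega
    · simp [Mkt.ord] at h1
    · simp only [Mkt.ord, Sum.inr.injEq] at h1
      rw [h1]
    · simp [Mkt.ord] at h1
    · simp only [Mkt.ord, Sum.inl.injEq] at h1 h2
      omega
    · simp [Mkt.ord] at h1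
    · simp only [Mkt.ord, Sum.inl.injEq] at h1 h2
      subst h1
      have := (hr.rkW j).inj (show ρW j (i, p) = ρW j (i', p') by omega)
      rw [Prod.ext_iff] at this
      simp only at this
      rw [this.1, this.2]

end SAG
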