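import Pool.Agent.SAG.FewDefs
import Pool.Agent.SAG.Best
import Pool.Agent.SAG.Ranks

/-!
# Few agents on one side: the threshold map
-/

set_option linter.unusedSectionVars false

namespace SAG

open SAQ Finset

variable {M W : Type} [Fintype M] [Fintype W] [DecidableEq M] {d : Few M W}
  {ρ : M → W × Fin d.K → ℕ}

/-! ### Offers -/

theorem off_mono (hd : d.OK) (i : M) {s t : ℕ} (h : s ≤ t) (j : W) :
    d.off ρ i s j ≤ d.off ρ i t j := by
  unfold Few.off
  apply Finset.sum_le_sum
  intro p _
  have h1 := (hd.agg i).mono j p p.2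
  split_ifs <;> omega

theorem off_nonneg (hd : d.OK) (i : M) (t : ℕ) (j : W) : 0 ≤ d.off ρ i t j := by
  unfold Few.off
  apply Finset.sum_nonneg
  intro p _
  have h1 := (hd.agg i).mono j p p.2
  split_ifs <;> omega

theorem sum_len (hd : d.OK) (i : M) (j : W) :
    ∑ p : Fin d.K, (d.β i j (p + 1) - d.β i j p) = d.β i j d.K := by
  rw [Fin.sum_univ_eq_sum_range (fun p => d.β i j (p + 1) - d.β i j p),
    Finset.sum_range_sub (fun p => d.β i j p), (hd.agg i).zero j, sub_zero]

theorem off_le (hd : d.OK) (i : M) (t : ℕ) (j : W) : d.off ρ i t j ≤ d.β i j d.K := by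
  rw [← sum_len hd]
  unfold Few.off
  apply Finset.sum_le_sum
  intro p _
  have h1 := (hd.agg i).mono j p p.2
  split_ifs <;> omega

theorem beta_le (hd : d.OK) (i : M) (j : W) : d.β i j d.K ≤ d.K := by
  rw [← sum_len hd]
  calc ∑ p : Fin d.K, (d.β i j (p + 1) - d.β i j p) ≤ ∑ _p : Fin d.K, (1 : ℤ) :=
        Finset.sum_le_sum fun p _ => by
          have := hd.unit i j p p.2
          omega
    _ = d.K := by simp

theorem sum_ite_lt (hd : d.OK) (i : M) (j : W) (q : ℕ) (hq : q ≤ d.K) :
    ∑ p : Fin d.K, (if (p : ℕ) < q then d.β i j (p + 1) - d.β i j p else 0) = d.β i j q := by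
  rw [Fin.sum_univ_eq_sum_range (fun p => if p < q then d.β i j (p + 1) - d.β i j p else 0)]
  rw [← Finset.sum_filter]
  have h1 : (range d.K).filter (fun p => p < q) = range q := by
    ext p
    simp only [mem_filter, mem_range]
    omega
  rw [h1, Finset.sum_range_sub (fun p => d.β i j p), (hd.agg i).zero j, sub_zero]

theorem off_le_of (hd : d.OK) (hr : d.Ranks ρ) {i : M} {t : ℕ} {j : W} {p : Fin d.K}
    (h : t ≤ ρ i (j, p)) : d.off ρ i t j ≤ d.β i j p := by
  rw [← sum_ite_lt hd i j p p.2.le]
  unfold Few.off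
  apply Finset.sum_le_sum
  intro q _
  have h1 := (hd.agg i).mono j q q.2
  by_cases h2 : (q : ℕ) < p
  · rw [if_pos h2]
    split_ifs <;> omega
  · rw [if_neg h2, if_neg]
    rcases eq_or_lt_of_le (not_lt.1 h2) with h3 | h3
    · have : q = p := Fin.ext h3.symm
      rw [this]
      omega
    · have := (hr.rk i).piece j p q h3
      omega

theorem le_off_of (hd : d.OK) (hr : d.Ranks ρ) {i : M} {t : ℕ} {j : W} {p : Fin d.K}
    (h : ρ i (j, p) < t) : d.β i j (p + 1) ≤ d.off ρ i t j := by
  rw [← sum_ite_lt hd i j (p + 1) p.2]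
  unfold Few.off
  apply Finset.sum_le_sum
  intro q _
  have h1 := (hd.agg i).mono j q q.2
  by_cases h2 : (q : ℕ) < p + 1
  · rw [if_pos h2, if_pos]
    rcases eq_or_lt_of_le (Nat.lt_succ_iff.1 h2) with h3 | h3
    · have : q = p := Fin.ext h3
      rw [this]
      exact h
    · have := (hr.rk i).piece j q p h3
      omega
  · rw [if_neg h2]
    split_ifs <;> omega

theorem off_succ_ne (hr : d.Ranks ρ) {i : M} {t : ℕ} {e : W × Fin d.K} (he : ρ i e = t) {j : W}
    (hj : j ≠ e.1) : d.off ρ i (t + 1) j = d.off ρ i t j := by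
  unfold Few.off
  apply Finset.sum_congr rfl
  intro p _
  have hne : ρ i (j, p) ≠ t := by
    intro h
    have := (hr.rk i).inj (h.trans he.symm)
    exact hj (by rw [← this])
  by_cases h1 : ρ i (j, p) < t
  · rw [if_pos h1, if_pos (by omega)]
  · rw [if_neg h1, if_neg (by omega)]

theorem off_succ_self (hd : d.OK) (hr : d.Ranks ρ) {i : M} {t : ℕ} {e : W × Fin d.K}
    (he : ρ i e = t) : d.off ρ i (t + 1) e.1 = d.off ρ i t e.1 ∨
      d.off ρ i (t + 1) e.1 = d.off ρ i t e.1 + 1 := by
  have h1 : d.off ρ i (t + 1) e.1 = d.off ρ i t e.1 +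
      (d.β i e.1 (e.2 + 1) - d.β i e.1 e.2) := by
    unfold Few.off
    rw [← Finset.add_sum_erase _ _ (mem_univ e.2),
      ← Finset.add_sum_erase univ (fun p : Fin d.K => if ρ i (e.1, p) < t then
        d.β i e.1 (p + 1) - d.β i e.1 p else 0) (mem_univ e.2)]
    have h2 : ρ i (e.1, e.2) = t := he
    rw [if_pos (by omega), if_neg (by omega)]
    have h3 : ∑ p ∈ univ.erase e.2, (if ρ i (e.1, p) < t + 1 then
        d.β i e.1 (p + 1) - d.β i e.1 p else 0) = ∑ p ∈ univ.erase e.2,
        (if ρ i (e.1, p) < t then d.β i e.1 (p + 1) - d.β i e.1 p else 0) := by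
      apply Finset.sum_congr rfl
      intro p hp
      have hne : ρ i (e.1, p) ≠ t := by
        intro h
        have := (hr.rk i).inj (h.trans he.symm)
        rw [mem_erase] at hp
        exact hp.1 (by rw [← this])
      by_cases h1 : ρ i (e.1, p) < t
      · rw [if_pos h1, if_pos (by omega)]
      · rw [if_neg h1, if_neg (by omega)]
    rw [h3]
    ring
  have h4 := (hd.agg i).mono e.1 e.2 e.2.2
  have h5 := hd.unit i e.1 e.2 e.2.2
  rw [h1]
  omega

/-! ### The allocation -/

/-- The offers to `j`. -/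
def offs (d : Few M W) (ρ : M → W × Fin d.K → ℕ) (t : M → ℕ) (j : W) : M → ℤ :=
  fun i => d.off ρ i (t i) j

theorem offs_nonneg (hd : d.OK) (t : M → ℕ) (j : W) : 0 ≤ offs d ρ t j :=
  fun i => off_nonneg hd i (t i) j

theorem acc_spec (hd : d.OK) (t : M → ℕ) (j : W) :
    IsC (tdom d.K (d.fW j)) (lkey d.K (d.fW j)) (offs d ρ t j) (fun i => d.acc ρ t i j) :=
  ch_spec (pref_of d.K (hd.condA j) (hd.mnat j)) (offs_nonneg hd t j)

theorem acc_nonneg (hd : d.OK) (t : M → ℕ) (i : M) (j : W) : 0 ≤ d.acc ρ t i j :=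
  (pref_of d.K (hd.condA j) (hd.mnat j)).nonneg _ (acc_spec hd t j).1 i

theorem acc_le (hd : d.OK) (t : M → ℕ) (i : M) (j : W) : d.acc ρ t i j ≤ d.off ρ i (t i) j :=
  (acc_spec hd t j).2.1 i

theorem tot_anti (hd : d.OK) {t t' : M → ℕ} (h : t ≤ t') {i : M} (hi : t i = t' i) :
    d.tot ρ t' i ≤ d.tot ρ t i := by
  unfold Few.tot
  apply Finset.sum_le_sum
  intro j _
  have hle : offs d ρ t j ≤ offs d ρ t' j := fun i' => off_mono hd i' (h i') j
  have h1 := rej_mono (pref_of d.K (hd.condA j) (hd.mnat j)) (offs_nonneg hd t j) hle i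
  have h2 : offs d ρ t j i = offs d ρ t' j i := by
    unfold offs
    rw [hi]
  simp only [Pi.sub_apply] at h1
  change Ch (tdom d.K (d.fW j)) (lkey d.K (d.fW j)) (offs d ρ t' j) i ≤
    Ch (tdom d.K (d.fW j)) (lkey d.K (d.fW j)) (offs d ρ t j) i
  omega

theorem acc_step (hd : d.OK) (hr : d.Ranks ρ) (t : M → ℕ) (i : M) (s : ℕ)
    {e : W × Fin d.K} (he : ρ i e = s) (j : W) :
    d.acc ρ (Function.update t i (s + 1)) i j = d.acc ρ (Function.update t i s) i j ∨
      (j = e.1 ∧ d.acc ρ (Function.update t i (s + 1)) i j =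
        d.acc ρ (Function.update t i s) i j + 1) := by
  have hoffne : ∀ i', i' ≠ i → offs d ρ (Function.update t i (s + 1)) j i' =
      offs d ρ (Function.update t i s) j i' := by
    intro i' hi'
    unfold offs
    rw [Function.update_of_ne hi', Function.update_of_ne hi']
  have hoff : ∀ s', offs d ρ (Function.update t i s') j i = d.off ρ i s' j := by
    intro s'
    unfold offs
    rw [Function.update_self]
  have heq : offs d ρ (Function.update t i (s + 1)) j = offs d ρ (Function.update t i s) j →
      d.acc ρ (Function.update t i (s + 1)) i j = d.acc ρ (Function.update t i s) i j := by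
    intro h
    change Ch (tdom d.K (d.fW j)) (lkey d.K (d.fW j)) (offs d ρ _ j) i =
      Ch (tdom d.K (d.fW j)) (lkey d.K (d.fW j)) (offs d ρ _ j) i
    rw [h]
  by_cases hj : j = e.1
  · rcases off_succ_self hd hr he with h1 | h1
    · left
      apply heq
      funext i'
      by_cases hi' : i' = i
      · subst hi'
        rw [hoff, hoff, hj]
        exact h1
      · exact hoffne i' hi'
    · have h2 : offs d ρ (Function.update t i (s + 1)) j =
          offs d ρ (Function.update t i s) j + ev (some i) := by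
        funext i'
        rw [Pi.add_apply]
        by_cases hi' : i' = i
        · subst hi'
          rw [hoff, hoff, hj, ev_some_self]
          exact h1
        · rw [hoffne i' hi', ev_some_ne hi', add_zero]
      rcases ch_step (pref_of d.K (hd.condA j) (hd.mnat j))
        (offs_nonneg hd (Function.update t i s) j) i with h3 | ⟨v, hv, -, h3⟩
      · left
        change Ch (tdom d.K (d.fW j)) (lkey d.K (d.fW j)) (offs d ρ _ j) i =
          Ch (tdom d.K (d.fW j)) (lkey d.K (d.fW j)) (offs d ρ _ j) i
        rw [h2, h3]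
      · right
        refine ⟨hj, ?_⟩
        change Ch (tdom d.K (d.fW j)) (lkey d.K (d.fW j)) (offs d ρ _ j) i =
          Ch (tdom d.K (d.fW j)) (lkey d.K (d.fW j)) (offs d ρ _ j) i + 1
        rw [h2, h3, Pi.sub_apply, Pi.add_apply, ev_some_self]
        have h4 : (ev v : M → ℤ) i = 0 := by
          unfold ev
          rw [if_neg hv]
        rw [h4, sub_zero]
  · left
    apply heq
    funext i'
    by_cases hi' : i' = i
    · subst hi'
      rw [hoff, hoff]
      exact off_succ_ne hr he hj
    · exact hoffne i' hi'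

theorem tot_step (hd : d.OK) (hr : d.Ranks ρ) (t : M → ℕ) (i : M) (s : ℕ)
    (hs : s < Fintype.card W * d.K) :
    d.tot ρ (Function.update t i s) i ≤ d.tot ρ (Function.update t i (s + 1)) i ∧
      d.tot ρ (Function.update t i (s + 1)) i ≤ d.tot ρ (Function.update t i s) i + 1 := by
  classical
  obtain ⟨e, he⟩ := hr.surj i s hs
  have h1 := acc_step hd hr t i s he
  unfold Few.tot
  constructor
  · apply Finset.sum_le_sum
    intro j _
    rcases h1 j with h2 | ⟨-, h2⟩ <;> omega
  · rw [← Finset.add_sum_erase _ _ (mem_univ e.1), ← Finset.add_sum_erase univ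
      (fun j => d.acc ρ (Function.update t i s) i j) (mem_univ e.1)]
    have h3 : ∑ j ∈ univ.erase e.1, d.acc ρ (Function.update t i (s + 1)) i j =
        ∑ j ∈ univ.erase e.1, d.acc ρ (Function.update t i s) i j := by
      apply Finset.sum_congr rfl
      intro j hj
      rw [mem_erase] at hj
      rcases h1 j with h2 | ⟨h2, -⟩
      · exact h2
      · exact absurd h2 hj.1
    rw [h3]
    rcases h1 e.1 with h2 | ⟨-, h2⟩ <;> omega

theorem tot_nonneg' (hd : d.OK) (t : M → ℕ) (i : M) : 0 ≤ d.tot ρ t i :=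
  Finset.sum_nonneg fun j _ => acc_nonneg hd t i j

/-! ### The threshold map -/

theorem prof_down (hd : d.OK) (hr : d.Ranks ρ) (t : M → ℕ) (i : M) (s : ℕ)
    (hs : s + 1 < Fintype.card W * d.K) (h : d.Prof ρ t i (s + 1)) : d.Prof ρ t i s := by
  have h1 := (tot_step hd hr t i s (by omega)).1
  have h2 := h.1
  refine ⟨by omega, fun e he => ?_⟩
  obtain ⟨e', he'⟩ := hr.surj i (s + 1) hs
  have h3 := h.2 e' he'
  have h4 : d.c i e'.1 e'.2 ≤ d.c i e.1 e.2 := (hr.rk i).anti e e' (by omega)
  have h5 := tot_nonneg' hd (ρ := ρ) (Function.update t i s) i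
  exact acc_down (hd.agg i) (by omega) (by omega) h2 (h3.mono h4)

theorem prof_mono (hd : d.OK) {t t' : M → ℕ} (h : t ≤ t') (i : M) (s : ℕ)
    (hp : d.Prof ρ t i s) : d.Prof ρ t' i s := by
  have h1 : d.tot ρ (Function.update t' i s) i ≤ d.tot ρ (Function.update t i s) i := by
    apply tot_anti hd
    · intro i'
      by_cases hi' : i' = i
      · subst hi'
        rw [Function.update_self, Function.update_self]
      · rw [Function.update_of_ne hi', Function.update_of_ne hi']
        exact h i'
    · rw [Function.update_self, Function.update_self]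
  have h5 := tot_nonneg' hd (ρ := ρ) (Function.update t' i s) i
  have h2 := hp.1
  refine ⟨by omega, fun e he => ?_⟩
  exact acc_down (hd.agg i) (by omega) (by omega) h2 (hp.2 e he)

theorem F_le (t : M → ℕ) (i : M) : d.F ρ t i ≤ Fintype.card W * d.K := by
  classical
  unfold Few.F
  exact (card_filter_le _ _).trans (by rw [card_range])

theorem F_mono (hd : d.OK) {t t' : M → ℕ} (h : t ≤ t') : d.F ρ t ≤ d.F ρ t' := by
  classical
  intro i
  unfold Few.F
  apply card_le_card
  intro s hs
  rw [mem_filter] at hs ⊢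
  exact ⟨hs.1, prof_mono hd h i s hs.2⟩

theorem lt_F (hd : d.OK) (hr : d.Ranks ρ) (t : M → ℕ) (i : M) (s : ℕ) :
    s < d.F ρ t i ↔ s < Fintype.card W * d.K ∧ d.Prof ρ t i s := by
  classical
  have hdown : ∀ n s, s + n < Fintype.card W * d.K → d.Prof ρ t i (s + n) →
      d.Prof ρ t i s := by
    intro n
    induction n with
    | zero => intro s _ h; exact h
    | succ n ih =>
      intro s hs h
      exact ih s (by omega) (prof_down hd hr t i (s + n) (by omega) h)
  constructor
  · intro h
    have hsub : ¬ (range (Fintype.card W * d.K)).filter (fun s => d.Prof ρ t i s) ⊆ range s := by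
      intro hsub
      have := card_le_card hsub
      rw [card_range] at this
      unfold Few.F at h
      omega
    rw [Finset.subset_iff] at hsub
    push Not at hsub
    obtain ⟨s', h1, h2⟩ := hsub
    rw [mem_filter, mem_range] at h1
    rw [mem_range, not_lt] at h2
    obtain ⟨n, rfl⟩ := Nat.exists_eq_add_of_le h2
    exact ⟨by omega, hdown n s h1.1 h1.2⟩
  · rintro ⟨h1, h2⟩
    have hsub : range (s + 1) ⊆ (range (Fintype.card W * d.K)).filter
        (fun s => d.Prof ρ t i s) := by
      intro s' hs'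
      rw [mem_range] at hs'
      rw [mem_filter, mem_range]
      obtain ⟨n, hn⟩ := Nat.exists_eq_add_of_le (Nat.lt_succ_iff.1 hs')
      refine ⟨by omega, hdown n s' (by omega) ?_⟩
      rw [← hn]
      exact h2
    have := card_le_card hsub
    rw [card_range] at this
    unfold Few.F
    omega

theorem exists_fix_nat (R : ℕ) (F : (M → ℕ) → M → ℕ) (hF : ∀ t i, F t i ≤ R)
    (hm : ∀ t t', t ≤ t' → F t ≤ F t') : ∃ t, F t = t := by
  have key : ∀ (n : ℕ) (t : M → ℕ), t ≤ F t → ∑ i, (R - t i) ≤ n → (∀ i, t i ≤ R) →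
      ∃ t, F t = t := by
    intro n
    induction n with
    | zero =>
      intro t h1 h2 h3
      refine ⟨t, ?_⟩
      have h4 : ∀ i ∈ univ, R - t i = 0 := by
        have h5 : ∑ i, (R - t i) = 0 := Nat.le_zero.1 h2
        exact Finset.sum_eq_zero_iff.1 h5
      funext i
      have h5 := h4 i (mem_univ i)
      have h6 := hF t i
      have h7 : t i ≤ F t i := h1 i
      have h8 := h3 i
      omega
    | succ n ih =>
      intro t h1 h2 h3
      by_cases h4 : F t = t
      · exact ⟨t, h4⟩
      · refine ih (F t) (hm _ _ h1) ?_ (hF t)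
        have h5 : ∃ i, t i < F t i := by
          by_contra hno
          push Not at hno
          exact h4 (le_antisymm hno h1)
        obtain ⟨i, hi⟩ := h5
        have h6 : ∑ i, (R - F t i) < ∑ i, (R - t i) := by
          apply Finset.sum_lt_sum
          · intro i' _
            have : t i' ≤ F t i' := h1 i'
            omega
          · refine ⟨i, mem_univ i, ?_⟩
            have := hF t i
            omega
        omega
  exact key (∑ i, (R - (0 : M → ℕ) i)) 0 (fun i => Nat.zero_le _) le_rfl (fun i => Nat.zero_le _)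

end SAG
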