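import Pool.Agent.SAG.Defs
import Pool.Agent.SAQ.Stable

/-!
# Few agents on one side

Definitions for markets in which the agents of `M` have value functions `∑ φ_a(y_a) + ψ(∑ y_a)`
(pieces of length at most one, so `φ_a` is an arbitrary concave function) and the agents of `W`
have arbitrary M♮-concave value functions.
-/

namespace SAG

open SAQ Finset

/-- The data of the market: `K` pieces for every pair, breakpoints `β`, slopes `c`, bounds `C` and
functions `ψ` of the total for the agents of `M`, value functions `fW` of the agents of `W`. -/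
structure Few (M W : Type) where
  K : ℕ
  β : M → W → ℕ → ℤ
  c : M → W → ℕ → ℝ
  C : M → ℤ
  ψ : M → ℤ → ℝ
  fW : W → (M → ℤ) → WithBot ℝ

variable {M W : Type} [Fintype M] [Fintype W]

/-- The value functions of the agents of `M`. -/
noncomputable def Few.fM (d : Few M W) (i : M) : (W → ℤ) → WithBot ℝ :=
  agg d.K (d.β i) (d.c i) (d.C i) (d.ψ i)

/-- The conditions on the data. -/
structure Few.OK [DecidableEq M] (d : Few M W) : Prop where
  agg : ∀ i, AggOK d.K (d.β i) (d.c i) (d.C i) (d.ψ i)
  unit : ∀ i j p, p < d.K → d.β i j (p + 1) ≤ d.β i j p + 1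
  condA : ∀ j, CondA (d.fW j)
  mnat : ∀ j, MNatConcave (d.fW j)

/-- Rankings of the units `(j, p)` of every agent of `M` by nonincreasing slope, with the ranks
`0, …, |W| K - 1`. -/
structure Few.Ranks (d : Few M W) (ρ : M → W × Fin d.K → ℕ) : Prop where
  rk : ∀ i, Rk (d.c i) (ρ i)
  lt : ∀ i e, ρ i e < Fintype.card W * d.K
  surj : ∀ i t, t < Fintype.card W * d.K → ∃ e, ρ i e = t

/-- Agent `i` offers to `j` all units of rank less than `t`. -/
def Few.off (d : Few M W) (ρ : M → W × Fin d.K → ℕ) (i : M) (t : ℕ) (j : W) : ℤ :=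
  ∑ p : Fin d.K, if ρ i (j, p) < t then d.β i j (p + 1) - d.β i j p else 0

/-- The allocation: every `j` takes its best bundle of the offered units (among the bundles of
equal value the one chosen by `lkey`). -/
noncomputable def Few.acc [DecidableEq M] (d : Few M W) (ρ : M → W × Fin d.K → ℕ) (t : M → ℕ)
    (i : M) (j : W) : ℤ :=
  Ch (tdom d.K (d.fW j)) (lkey d.K (d.fW j)) (fun i' => d.off ρ i' (t i') j) i

/-- The number of units of `i` that are taken. -/
noncomputable def Few.tot [DecidableEq M] (d : Few M W) (ρ : M → W × Fin d.K → ℕ) (t : M → ℕ)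
    (i : M) : ℤ := ∑ j, d.acc ρ t i j

/-- If agent `i` offers the units of rank less than `s` then one more unit is profitable at the
slope of the unit of rank `s`. -/
def Few.Prof [DecidableEq M] (d : Few M W) (ρ : M → W × Fin d.K → ℕ) (t : M → ℕ) (i : M)
    (s : ℕ) : Prop :=
  d.tot ρ (Function.update t i s) i + 1 ≤ d.C i ∧
    ∀ e, ρ i e = s → Acc (d.ψ i) (d.c i e.1 e.2) (d.tot ρ (Function.update t i s) i + 1)

open Classical in
/-- The threshold map. -/
noncomputable def Few.F [DecidableEq M] (d : Few M W) (ρ : M → W × Fin d.K → ℕ) (t : M → ℕ)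
    (i : M) : ℕ :=
  ((range (Fintype.card W * d.K)).filter fun s => d.Prof ρ t i s).card

end SAG
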