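import Pool.Agent.SAG.Few

/-!
# Fixed points of the threshold map are stable allocations
-/

set_option linter.unusedSectionVars false

namespace SAG

open SAQ Finset

variable {M W : Type} [Fintype M] [Fintype W] [DecidableEq M] {d : Few M W}
  {ρ : M → W × Fin d.K → ℕ}

/-- The taken units of `i`, item by item. -/
def zed (d : Few M W) (i : M) (x : W → ℤ) (e : W × Fin d.K) : ℤ := portion (d.β i e.1) e.2 (x e.1)

section Agent

variable (hd : d.OK) (i : M) {x : W → ℤ} (hx : ∀ j, 0 ≤ x j ∧ x j ≤ d.β i j d.K)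

include hd in
theorem zed_nonneg (e : W × Fin d.K) : 0 ≤ zed d i x e :=
  portion_nonneg ((hd.agg i).mono e.1 e.2 e.2.2) _

include hd in
theorem zed_le (j : W) (p : Fin d.K) : zed d i x (j, p) ≤ d.β i j (p + 1) - d.β i j p :=
  portion_le ((hd.agg i).mono j p p.2) _

include hd in
theorem zed_fill (j : W) (p q : Fin d.K) (hpq : p < q)
    (h : zed d i x (j, p) < d.β i j (p + 1) - d.β i j p) : zed d i x (j, q) = 0 := by
  have h1 := (hd.agg i).le j (show (p : ℕ) + 1 ≤ q from hpq) q.2.le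
  have h2 := (hd.agg i).mono j q q.2
  have h3 := (hd.agg i).mono j p p.2
  unfold zed portion at h ⊢
  simp only at h ⊢
  omega

include hd hx in
theorem sum_zed (j : W) : ∑ p, zed d i x (j, p) = x j :=
  sum_portion ((hd.agg i).zero j) (hx j).1 (hx j).2

include hd hx in
theorem sum_zed_all : ∑ e, zed d i x e = ∑ j, x j := by
  rw [← sum_tot]
  exact Finset.sum_congr rfl fun j _ => sum_zed hd i hx j

theorem zed_pos {e : W × Fin d.K} (h : 0 < zed d i x e) : d.β i e.1 e.2 < x e.1 := by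
  unfold zed portion at h
  by_contra hn
  rw [min_eq_left (not_lt.1 hn)] at h
  have := min_le_left (x e.1) (d.β i e.1 (e.2 + 1))
  omega

end Agent

section Fix

variable (hd : d.OK) (hr : d.Ranks ρ) {t : M → ℕ} (ht : d.F ρ t = t)

include hd in
theorem acc_box (i : M) (j : W) : 0 ≤ d.acc ρ t i j ∧ d.acc ρ t i j ≤ d.β i j d.K :=
  ⟨acc_nonneg hd t i j, (acc_le hd t i j).trans (off_le hd i (t i) j)⟩

include hr in
theorem rank_lt_of_pos (hd : d.OK) (i : M) {e : W × Fin d.K}
    (h : 0 < zed d i (d.acc ρ t i) e) : ρ i e < t i := by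
  by_contra hn
  have h1 := off_le_of hd hr (i := i) (t := t i) (j := e.1) (p := e.2) (not_lt.1 hn)
  have h2 := zed_pos i h
  have h3 := acc_le hd (ρ := ρ) t i e.1
  omega

theorem update_same (i : M) : Function.update t i (t i) = t := Function.update_eq_self i t

include hd hr ht in
theorem tot_pred (i : M) (hpos : 0 < t i) : d.tot ρ t i ≤ d.C i ∧
    ∀ e, ρ i e < t i → 1 ≤ d.tot ρ t i → Acc (d.ψ i) (d.c i e.1 e.2) (d.tot ρ t i) := by
  have hlt : t i - 1 < d.F ρ t i := by
    rw [ht]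
    omega
  rw [lt_F hd hr] at hlt
  obtain ⟨h1, h2, h3⟩ := hlt
  have h4 := (tot_step hd hr t i (t i - 1) h1).2
  rw [Nat.sub_add_cancel hpos, update_same] at h4
  refine ⟨by omega, fun e he h5 => ?_⟩
  obtain ⟨e', he'⟩ := hr.surj i (t i - 1) h1
  have h6 : d.c i e'.1 e'.2 ≤ d.c i e.1 e.2 := (hr.rk i).anti e e' (by omega)
  exact acc_down (hd.agg i) h5 h4 h2 ((h3 e' he').mono h6)

include hd hr ht in
theorem tot_le_C (i : M) : d.tot ρ t i ≤ d.C i := by
  rcases Nat.eq_zero_or_pos (t i) with h | h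
  · have h1 : d.tot ρ t i ≤ 0 := by
      unfold Few.tot
      apply Finset.sum_nonpos
      intro j _
      have h2 := acc_le hd (ρ := ρ) t i j
      have h3 : d.off ρ i (t i) j = 0 := by
        unfold Few.off
        rw [h]
        simp
      omega
    have := (hd.agg i).C0
    omega
  · exact (tot_pred hd hr ht i h).1

include hd hr ht in
theorem few_H1 (i : M) (e : W × Fin d.K) (he : 0 < zed d i (d.acc ρ t i) e) :
    pre (ρ i) (zed d i (d.acc ρ t i)) e ≤ cnt (d.C i) (d.ψ i) (d.c i e.1 e.2) := by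
  have h1 := rank_lt_of_pos hr hd i he
  have h2 : pre (ρ i) (zed d i (d.acc ρ t i)) e ≤ d.tot ρ t i :=
    (pre_le (fun e => zed_nonneg hd i e) e).trans
      (sum_zed_all hd i (fun j => acc_box hd i j)).le
  have h3 : 1 ≤ d.tot ρ t i := by
    have h4 : zed d i (d.acc ρ t i) e ≤ ∑ e, zed d i (d.acc ρ t i) e :=
      Finset.single_le_sum (fun e _ => zed_nonneg hd i e) (mem_univ e)
    rw [sum_zed_all hd i (fun j => acc_box hd i j)] at h4
    unfold Few.tot
    omega
  have h5 := (tot_pred hd hr ht i (by omega)).2 e h1 h3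
  exact h2.trans (le_cnt (hd.agg i) h3 (tot_le_C hd hr ht i) h5)

include hd hr ht in
theorem few_free (i : M) (j : W) (hall : d.acc ρ t i j = d.off ρ i (t i) j)
    (hlt : d.acc ρ t i j < d.β i j d.K) :
    ∃ p, Free (d.β i) (d.c i) (d.C i) (d.ψ i) (ρ i) (zed d i (d.acc ρ t i)) j p := by
  obtain ⟨p, hp, h1, h2⟩ := exists_piece (hd.agg i) j (acc_nonneg hd t i j) hlt
  have hun := hd.unit i j p hp
  have hrank : t i ≤ ρ i (j, ⟨p, hp⟩) := by
    by_contra hn
    have h3 := le_off_of hd hr (i := i) (t := t i) (j := j) (p := ⟨p, hp⟩) (not_le.1 hn)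
    simp only at h3
    omega
  refine ⟨⟨p, hp⟩, ?_, fun q hq => ?_, ?_⟩
  · unfold zed portion
    simp only
    omega
  · have h3 := (hd.agg i).le j (show (q : ℕ) + 1 ≤ p from hq) hp.le
    have h4 := (hd.agg i).mono j q q.2
    unfold zed portion
    simp only
    omega
  · have hpre : d.tot ρ t i ≤ pre (ρ i) (zed d i (d.acc ρ t i)) (j, ⟨p, hp⟩) := by
      have h3 : d.tot ρ t i = ∑ e, zed d i (d.acc ρ t i) e :=
        (sum_zed_all hd i (fun j => acc_box hd i j)).symm
      rw [h3]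
      unfold pre
      have h4 : ∑ e ∈ univ.filter (fun e' => ρ i e' ≤ ρ i (j, ⟨p, hp⟩)),
          zed d i (d.acc ρ t i) e = ∑ e, zed d i (d.acc ρ t i) e := by
        apply Finset.sum_subset (subset_univ _)
        intro e _ he
        rw [mem_filter] at he
        by_contra hne
        have h5 : 0 < zed d i (d.acc ρ t i) e :=
          lt_of_le_of_ne (zed_nonneg hd i e) (Ne.symm hne)
        have h6 := rank_lt_of_pos hr hd i h5
        exact he ⟨mem_univ _, by omega⟩
      rw [h4]
    by_contra hn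
    rw [not_le] at hn
    have hT0 := tot_nonneg' hd (ρ := ρ) t i
    have hC : cnt (d.C i) (d.ψ i) (d.c i j p) ≤ d.C i := by
      classical
      unfold cnt
      have h3 := card_filter_le (Icc 1 (d.C i)) fun s => Acc (d.ψ i) (d.c i j p) s
      rw [Int.card_Icc] at h3
      have h4 := (hd.agg i).C0
      omega
    simp only at hn
    have hacc : Acc (d.ψ i) (d.c i j p) (d.tot ρ t i + 1) :=
      acc_of_le_cnt (hd.agg i) (by omega) (by omega)
    have hR := hr.lt i (j, ⟨p, hp⟩)
    have hnot : ¬ t i < d.F ρ t i := by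
      rw [ht]
      exact lt_irrefl _
    rw [lt_F hd hr] at hnot
    apply hnot
    refine ⟨by omega, ?_, fun e he => ?_⟩
    · rw [update_same]
      omega
    · rw [update_same]
      exact hacc.mono ((hr.rk i).anti e (j, ⟨p, hp⟩) (by omega))

include hd hr ht in
theorem few_best (i : M) (y : W → ℤ)
    (hc : ∀ j, y j ≤ d.acc ρ t i j ∨ d.acc ρ t i j = d.off ρ i (t i) j) :
    d.fM i y ≤ d.fM i (d.acc ρ t i) := by
  by_cases hy : d.fM i y = ⊥
  · rw [hy]
    exact bot_le
  · have hy' := agg_ne_bot.1 hy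
    have hbox : ∀ j, 0 ≤ d.acc ρ t i j ∧ d.acc ρ t i j ≤ d.β i j d.K := fun j => acc_box hd i j
    have hdom : (∀ j, 0 ≤ d.acc ρ t i j ∧ d.acc ρ t i j ≤ d.β i j d.K) ∧
        ∑ j, d.acc ρ t i j ≤ d.C i := ⟨hbox, tot_le_C hd hr ht i⟩
    have hb := best (hd.agg i) (hr.rk i) (z := zed d i (d.acc ρ t i))
      (fun e => zed_nonneg hd i e) (fun j p => zed_le hd i j p)
      (fun j p q hpq h => zed_fill hd i j p q hpq h)
      (by rw [sum_zed_all hd i hbox]; exact hdom.2) (few_H1 hd hr ht i) hy'.1 hy'.2 (by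
        intro j
        rw [sum_zed hd i hbox]
        rcases hc j with h1 | h1
        · exact Or.inl h1
        · rcases lt_or_eq_of_le (hbox j).2 with h2 | h2
          · exact Or.inr (few_free hd hr ht i j h1 h2)
          · left
            rw [h2]
            exact (hy'.1 j).2)
    unfold Few.fM
    rw [agg_eq hy', agg_eq hdom, WithBot.coe_le_coe]
    simp only [sum_zed hd i hbox] at hb
    exact hb

theorem cmp_key {V : Type} [Fintype V] {B : ℕ} {f : (V → ℤ) → WithBot ℝ} {a b : V → ℤ}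
    (ha : f a ≠ ⊥) (h : lkey B f b ≤ lkey B f a) : f b ≤ f a := by
  rcases eq_or_ne (f b) ⊥ with hb | hb
  · rw [hb]; exact bot_le
  · obtain ⟨a', ha'⟩ := WithBot.ne_bot_iff_exists.1 ha
    obtain ⟨b', hb'⟩ := WithBot.ne_bot_iff_exists.1 hb
    rw [lkey, lkey, Prod.Lex.toLex_le_toLex, ← ha', ← hb'] at h
    simp only [WithBot.unbotD_coe] at h
    rw [← ha', ← hb', WithBot.coe_le_coe]
    rcases h with h | h
    · exact h.le
    · exact h.1.le

variable [DecidableEq W]

include hd hr ht in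
theorem few_stable : Stable d.fM d.fW (d.acc ρ t) := by
  have hspec := fun j => acc_spec hd (ρ := ρ) t j
  refine ⟨⟨fun i => agg_ne_bot.2 ⟨fun j => acc_box hd i j, tot_le_C hd hr ht i⟩,
    fun j => (hspec j).1.1⟩, ?_⟩
  rintro (⟨i, y, hle, hlt⟩ | ⟨j, y, hle, hlt⟩ | ⟨i, j, y', y'', h1, h2, h3, h4, h5⟩)
  · exact absurd (few_best hd hr ht i y fun j => Or.inl (hle j)) (not_le.2 hlt)
  · have hyD : d.fW j y ≠ ⊥ := ne_bot_of_gt hlt
    have := (hspec j).2.2 y ⟨hyD, fun v => (hle v).trans ((hspec j).1.2 v)⟩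
      (hle.trans (hspec j).2.1)
    exact absurd (cmp_key (hspec j).1.1 this) (not_le.2 hlt)
  · have hne : d.fM i y' ≠ ⊥ := ne_bot_of_gt h1
    have hyK : y' j ≤ d.K := ((agg_ne_bot.1 hne).1 j).2.trans (beta_le hd i j)
    rcases lt_or_eq_of_le (acc_le hd (ρ := ρ) t i j) with h6 | h6
    · have hD : y'' ∈ tdom d.K (d.fW j) := by
        refine ⟨ne_bot_of_gt h2, fun i' => ?_⟩
        by_cases hi : i' = i
        · rw [hi, ← h5]
          exact hyK
        · exact (h4 i' hi).trans ((hspec j).1.2 i')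
      have := no_gain (pref_of d.K (hd.condA j) (hd.mnat j)) (X := offs d ρ t j) (y := y'')
        (offs_nonneg hd t j) (e := i) h6 hD (fun i' hi' => h4 i' hi')
      exact absurd (cmp_key (hspec j).1.1 this) (not_le.2 h2)
    · refine absurd (few_best hd hr ht i y' fun j' => ?_) (not_le.2 h1)
      by_cases hj : j' = j
      · rw [hj]
        exact Or.inr h6
      · exact Or.inl (h3 j' hj)

end Fix

end SAG
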