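import Pool.Agent.SAG.Split

/-!
# Stable allocations of the ordinal problem are stable allocations of the market
-/

namespace SAG

open SAQ Finset

variable {M W : Type} [Fintype M] [Fintype W] {d : Mkt M W}

/-- The allocation of the market. -/
def alloc (d : Mkt M W) (z : d.Item ⊕ d.Item ⊕ d.Item → ℤ) (i : M) (j : W) : ℤ :=
  ∑ p, z (Sum.inl (i, j, p))

section

variable {ρM : M → W × Fin d.K → ℕ} {ρW : W → M × Fin d.K → ℕ}
  {z : d.Item ⊕ d.Item ⊕ d.Item → ℤ}

theorem stepM (hd : d.OK) (hr : d.Ranks ρM ρW) (F : Facts d ρM ρW z) (i : M) :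
    (∀ e, 0 < zMr z i e → pre (ρM i) (zMr z i) e ≤ cnt (d.CM i) (d.ψM i) (d.cM i e.1 e.2)) ∧
    ∀ e, pre (ρM i) (zMr z i) e + pre (ρM i) (zMd z i) e = d.CM i →
      cnt (d.CM i) (d.ψM i) (d.cM i e.1 e.2) ≤ pre (ρM i) (zMr z i) e :=
  stepA (hd.okM i) (hr.rkM i) (fun _ => F.r0 _) (fun _ => F.r0 _) (F.dM i) (F.totM i) (F.stM i)

theorem stepW (hd : d.OK) (hr : d.Ranks ρM ρW) (F : Facts d ρM ρW z) (j : W) :
    (∀ e, 0 < zWr z j e → pre (ρW j) (zWr z j) e ≤ cnt (d.CW j) (d.ψW j) (d.cW j e.1 e.2)) ∧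
    ∀ e, pre (ρW j) (zWr z j) e + pre (ρW j) (zWd z j) e = d.CW j →
      cnt (d.CW j) (d.ψW j) (d.cW j e.1 e.2) ≤ pre (ρW j) (zWr z j) e :=
  stepA (hd.okW j) (hr.rkW j) (fun _ => F.r0 _) (fun _ => F.r0 _) (F.dW j) (F.totW j) (F.stW j)

theorem fill (hd : d.OK) (hr : d.Ranks ρM ρW) (F : Facts d ρM ρW z) (i : M) (j : W)
    (p q : Fin d.K) (hpq : p < q)
    (hlt : z (Sum.inl (i, j, p)) < d.β i j (p + 1) - d.β i j p) :
    z (Sum.inl (i, j, q)) = 0 := by
  by_contra hne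
  have hpos : 0 < z (Sum.inl (i, j, q)) := lt_of_le_of_ne (F.r0 _) (Ne.symm hne)
  rcases F.real i j p with h1 | h1 | h1
  · omega
  · have h2 := (stepM hd hr F i).2 (j, p) h1
    have h3 := (stepM hd hr F i).1 (j, q) hpos
    have h4 := pre_add_le (z := zMr z i) (fun _ => F.r0 _) ((hr.rkM i).piece j p q hpq)
    have h5 : cnt (d.CM i) (d.ψM i) (d.cM i j q) ≤ cnt (d.CM i) (d.ψM i) (d.cM i j p) :=
      cnt_mono _ ((hd.okM i).antiK j (le_of_lt hpq) q.2)
    have h6 : zMr z i (j, q) = z (Sum.inl (i, j, q)) := rfl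
    simp only at h2 h3
    omega
  · have h2 := (stepW hd hr F j).2 (i, p) h1
    have h3 := (stepW hd hr F j).1 (i, q) hpos
    have h4 := pre_add_le (z := zWr z j) (fun _ => F.r0 _) ((hr.rkW j).piece i p q hpq)
    have h5 : cnt (d.CW j) (d.ψW j) (d.cW j i q) ≤ cnt (d.CW j) (d.ψW j) (d.cW j i p) :=
      cnt_mono _ ((hd.okW j).antiK i (le_of_lt hpq) q.2)
    have h6 : zWr z j (i, q) = z (Sum.inl (i, j, q)) := rfl
    simp only at h2 h3
    omega

theorem domM (hd : d.OK) (F : Facts d ρM ρW z) (i : M) :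
    (∀ j, 0 ≤ alloc d z i j ∧ alloc d z i j ≤ d.β i j d.K) ∧ ∑ j, alloc d z i j ≤ d.CM i := by
  refine ⟨fun j => ⟨Finset.sum_nonneg fun _ _ => F.r0 _, ?_⟩, ?_⟩
  · exact tot_le (hd.okM i) (z := zMr z i) (fun j p => F.rle i j p) j
  · have h1 : ∑ j, alloc d z i j = ∑ e, zMr z i e := sum_tot (zMr z i)
    have h2 := F.totM i
    have h3 : 0 ≤ ∑ e, zMd z i e := Finset.sum_nonneg fun _ _ => F.r0 _
    omega

theorem domW (hd : d.OK) (F : Facts d ρM ρW z) (j : W) :
    (∀ i, 0 ≤ alloc d z i j ∧ alloc d z i j ≤ d.β i j d.K) ∧ ∑ i, alloc d z i j ≤ d.CW j := by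
  refine ⟨fun i => ⟨Finset.sum_nonneg fun _ _ => F.r0 _, ?_⟩, ?_⟩
  · exact tot_le (hd.okW j) (z := zWr z j) (fun i p => F.rle i j p) i
  · have h1 : ∑ i, alloc d z i j = ∑ e, zWr z j e := sum_tot (zWr z j)
    have h2 := F.totW j
    have h3 : 0 ≤ ∑ e, zWd z j e := Finset.sum_nonneg fun _ _ => F.r0 _
    omega

theorem bestM (hd : d.OK) (hr : d.Ranks ρM ρW) (F : Facts d ρM ρW z) (i : M) (y : W → ℤ)
    (hc : ∀ j, y j ≤ alloc d z i j ∨
      ∃ p, Free (d.β i) (d.cM i) (d.CM i) (d.ψM i) (ρM i) (zMr z i) j p) :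
    d.fM i y ≤ d.fM i (alloc d z i) := by
  by_cases hy : d.fM i y = ⊥
  · rw [hy]
    exact bot_le
  · have hy' := agg_ne_bot.1 hy
    unfold Mkt.fM
    rw [agg_eq hy', agg_eq (domM hd F i), WithBot.coe_le_coe]
    refine best (hd.okM i) (hr.rkM i) (z := zMr z i) (fun _ => F.r0 _) (fun j p => F.rle i j p)
      (fun j p q hpq h => fill hd hr F i j p q hpq h) ?_ (stepM hd hr F i).1 hy'.1 hy'.2 hc
    have h2 := F.totM i
    have h3 : 0 ≤ ∑ e, zMd z i e := Finset.sum_nonneg fun _ _ => F.r0 _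
    omega

theorem bestW (hd : d.OK) (hr : d.Ranks ρM ρW) (F : Facts d ρM ρW z) (j : W) (y : M → ℤ)
    (hc : ∀ i, y i ≤ alloc d z i j ∨
      ∃ p, Free (fun i => d.β i j) (d.cW j) (d.CW j) (d.ψW j) (ρW j) (zWr z j) i p) :
    d.fW j y ≤ d.fW j (fun i => alloc d z i j) := by
  by_cases hy : d.fW j y = ⊥
  · rw [hy]
    exact bot_le
  · have hy' := agg_ne_bot.1 hy
    unfold Mkt.fW
    rw [agg_eq hy', agg_eq (domW hd F j), WithBot.coe_le_coe]
    refine best (hd.okW j) (hr.rkW j) (z := zWr z j) (fun _ => F.r0 _) (fun i p => F.rle i j p)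
      (fun i p q hpq h => fill hd hr F i j p q hpq h) ?_ (stepW hd hr F j).1 hy'.1 hy'.2 hc
    have h2 := F.totW j
    have h3 : 0 ≤ ∑ e, zWd z j e := Finset.sum_nonneg fun _ _ => F.r0 _
    omega

/-- Either all pieces of a pair are full, or the first piece that is not is dominated. -/
theorem cases_pair (hd : d.OK) (hr : d.Ranks ρM ρW) (F : Facts d ρM ρW z) (i : M) (j : W) :
    alloc d z i j = d.β i j d.K ∨
    (∃ p, Free (d.β i) (d.cM i) (d.CM i) (d.ψM i) (ρM i) (zMr z i) j p) ∨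
    ∃ p, Free (fun i => d.β i j) (d.cW j) (d.CW j) (d.ψW j) (ρW j) (zWr z j) i p := by
  classical
  by_cases hall : ∀ p : Fin d.K, z (Sum.inl (i, j, p)) = d.β i j (p + 1) - d.β i j p
  · left
    unfold alloc
    rw [Finset.sum_congr rfl fun p _ => hall p,
      Fin.sum_univ_eq_sum_range (fun p => d.β i j (p + 1) - d.β i j p),
      Finset.sum_range_sub (fun p => d.β i j p), (hd.okM i).zero j, sub_zero]
  · right
    push Not at hall
    obtain ⟨p0, hp0⟩ := hall
    obtain ⟨p, hp, hmin⟩ := Finset.exists_min_image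
      (univ.filter fun p : Fin d.K => z (Sum.inl (i, j, p)) ≠ d.β i j (p + 1) - d.β i j p) id
      ⟨p0, by simp only [mem_filter, mem_univ, true_and]; exact hp0⟩
    simp only [mem_filter, mem_univ, true_and, id] at hp hmin
    have hlt : z (Sum.inl (i, j, p)) < d.β i j (p + 1) - d.β i j p :=
      lt_of_le_of_ne (F.rle i j p) hp
    have hfull : ∀ q, q < p → z (Sum.inl (i, j, q)) = d.β i j (q + 1) - d.β i j q := by
      intro q hq
      by_contra hne
      exact absurd (hmin q hne) (not_le.2 hq)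
    rcases F.real i j p with h1 | h1 | h1
    · omega
    · left
      exact ⟨p, hlt, hfull, (stepM hd hr F i).2 (j, p) h1⟩
    · right
      exact ⟨p, hlt, hfull, (stepW hd hr F j).2 (i, p) h1⟩

variable [DecidableEq M] [DecidableEq W]

theorem main (hd : d.OK) (hr : d.Ranks ρM ρW) (hz : (d.ord ρM ρW).Stable z) :
    Stable d.fM d.fW (alloc d z) := by
  have F := facts hz
  refine ⟨⟨fun i => agg_ne_bot.2 (domM hd F i), fun j => agg_ne_bot.2 (domW hd F j)⟩, ?_⟩
  rintro (⟨i, y, hle, hlt⟩ | ⟨j, y, hle, hlt⟩ | ⟨i, j, y', y'', h1, h2, h3, h4, h5⟩)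
  · exact absurd (bestM hd hr F i y fun j => Or.inl (hle j)) (not_le.2 hlt)
  · exact absurd (bestW hd hr F j y fun i => Or.inl (hle i)) (not_le.2 hlt)
  · have hdom : y' j ≤ d.β i j d.K := by
      have hne : d.fM i y' ≠ ⊥ := ne_bot_of_gt h1
      exact ((agg_ne_bot.1 hne).1 j).2
    rcases cases_pair hd hr F i j with h6 | h6 | h6
    · refine absurd (bestM hd hr F i y' fun j' => Or.inl ?_) (not_le.2 h1)
      by_cases hj : j' = j
      · rw [hj, h6]
        exact hdom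
      · exact h3 j' hj
    · refine absurd (bestM hd hr F i y' fun j' => ?_) (not_le.2 h1)
      by_cases hj : j' = j
      · rw [hj]
        exact Or.inr h6
      · exact Or.inl (h3 j' hj)
    · refine absurd (bestW hd hr F j y'' fun i' => ?_) (not_le.2 h2)
      by_cases hi : i' = i
      · rw [hi]
        exact Or.inr h6
      · exact Or.inl (h4 i' hi)

end

end SAG
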