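import Pool.Agent.SAG.Best

/-!
# Splitting the sums of the ordinal problem
-/

namespace SAG

open SAQ Finset

variable {M W : Type} [Fintype M] [Fintype W] {d : Mkt M W}

/-- The real edges at `i`. -/
def zMr (z : d.Item ⊕ d.Item ⊕ d.Item → ℤ) (i : M) (e : W × Fin d.K) : ℤ := z (Sum.inl (i, e))

/-- The dummy edges at `i`. -/
def zMd (z : d.Item ⊕ d.Item ⊕ d.Item → ℤ) (i : M) (e : W × Fin d.K) : ℤ :=
  z (Sum.inr (Sum.inl (i, e)))

/-- The real edges at `j`. -/
def zWr (z : d.Item ⊕ d.Item ⊕ d.Item → ℤ) (j : W) (e : M × Fin d.K) : ℤ :=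
  z (Sum.inl (e.1, j, e.2))

/-- The dummy edges at `j`. -/
def zWd (z : d.Item ⊕ d.Item ⊕ d.Item → ℤ) (j : W) (e : M × Fin d.K) : ℤ :=
  z (Sum.inr (Sum.inr (e.1, j, e.2)))

theorem sumM (f : d.Item → ℤ) (i : M) (P : W × Fin d.K → Prop) [DecidablePred P]
    [∀ e : d.Item, Decidable (e.1 = i ∧ P e.2)] :
    ∑ e : d.Item, (if e.1 = i ∧ P e.2 then f e else 0) =
      ∑ e ∈ univ.filter P, f (i, e) := by
  rw [Fintype.sum_prod_type, Finset.sum_eq_single i]
  · rw [Finset.sum_filter]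
    refine Finset.sum_congr rfl fun e _ => ?_
    simp
  · intro i' _ hne
    refine Finset.sum_eq_zero fun e _ => ?_
    simp [hne]
  · intro h
    exact absurd (mem_univ _) h

theorem sumW (f : d.Item → ℤ) (j : W) (P : M × Fin d.K → Prop) [DecidablePred P]
    [∀ e : d.Item, Decidable (e.2.1 = j ∧ P (e.1, e.2.2))] :
    ∑ e : d.Item, (if e.2.1 = j ∧ P (e.1, e.2.2) then f e else 0) =
      ∑ e ∈ univ.filter P, f (e.1, j, e.2) := by
  rw [Fintype.sum_prod_type, Finset.sum_filter, Fintype.sum_prod_type]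
  refine Finset.sum_congr rfl fun i _ => ?_
  rw [Fintype.sum_prod_type, Finset.sum_eq_single j]
  · refine Finset.sum_congr rfl fun p _ => ?_
    simp
  · intro j' _ hne
    refine Finset.sum_eq_zero fun e _ => ?_
    simp [hne]
  · intro h
    exact absurd (mem_univ _) h

theorem splitM (z : d.Item ⊕ d.Item ⊕ d.Item → ℤ) (i : M)
    (P : d.Item ⊕ d.Item ⊕ d.Item → Prop) (Q1 Q2 : W × Fin d.K → Prop)
    {_ : DecidablePred P} [DecidablePred Q1] [DecidablePred Q2]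
    (h1 : ∀ e : d.Item, P (Sum.inl e) ↔ e.1 = i ∧ Q1 e.2)
    (h2 : ∀ e : d.Item, P (Sum.inr (Sum.inl e)) ↔ e.1 = i ∧ Q2 e.2)
    (h3 : ∀ e : d.Item, ¬ P (Sum.inr (Sum.inr e))) :
    ∑ e ∈ univ.filter P, z e =
      ∑ e ∈ univ.filter Q1, zMr z i e + ∑ e ∈ univ.filter Q2, zMd z i e := by
  classical
  rw [Finset.sum_filter, Fintype.sum_sum_type, Fintype.sum_sum_type]
  simp only [h1, h2, h3, if_false, Finset.sum_const_zero, add_zero]
  rw [sumM (fun e => z (Sum.inl e)) i Q1, sumM (fun e => z (Sum.inr (Sum.inl e))) i Q2]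
  rfl

theorem splitW (z : d.Item ⊕ d.Item ⊕ d.Item → ℤ) (j : W)
    (P : d.Item ⊕ d.Item ⊕ d.Item → Prop) (Q1 Q2 : M × Fin d.K → Prop)
    {_ : DecidablePred P} [DecidablePred Q1] [DecidablePred Q2]
    (h1 : ∀ e : d.Item, P (Sum.inl e) ↔ e.2.1 = j ∧ Q1 (e.1, e.2.2))
    (h2 : ∀ e : d.Item, ¬ P (Sum.inr (Sum.inl e)))
    (h3 : ∀ e : d.Item, P (Sum.inr (Sum.inr e)) ↔ e.2.1 = j ∧ Q2 (e.1, e.2.2)) :
    ∑ e ∈ univ.filter P, z e =
      ∑ e ∈ univ.filter Q1, zWr z j e + ∑ e ∈ univ.filter Q2, zWd z j e := by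
  classical
  rw [Finset.sum_filter, Fintype.sum_sum_type, Fintype.sum_sum_type]
  simp only [h1, h2, h3, if_false, Finset.sum_const_zero, zero_add]
  rw [sumW (fun e => z (Sum.inl e)) j Q1, sumW (fun e => z (Sum.inr (Sum.inr e))) j Q2]
  rfl

theorem splitOne (z : d.Item ⊕ d.Item ⊕ d.Item → ℤ) (P : d.Item ⊕ d.Item ⊕ d.Item → Prop)
    {_ : DecidablePred P} (e0 : d.Item ⊕ d.Item ⊕ d.Item) (h : ∀ e, P e ↔ e = e0) :
    ∑ e ∈ univ.filter P, z e = z e0 := by
  rw [Finset.sum_eq_single e0]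
  · intro e he hne
    rw [mem_filter] at he
    exact absurd ((h e).1 he.2) hne
  · intro hh
    exact absurd (mem_filter.2 ⟨mem_univ _, (h e0).2 rfl⟩) hh

/-- The facts about a stable allocation of the ordinal problem. -/
structure Facts (d : Mkt M W) (ρM : M → W × Fin d.K → ℕ) (ρW : W → M × Fin d.K → ℕ)
    (z : d.Item ⊕ d.Item ⊕ d.Item → ℤ) : Prop where
  r0 : ∀ e, 0 ≤ z e
  rle : ∀ i j (p : Fin d.K), z (Sum.inl (i, j, p)) ≤ d.β i j (p + 1) - d.β i j p
  dM : ∀ i e, zMd z i e ≤ dum (d.cM i) (d.CM i) (d.ψM i) (ρM i) e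
  dW : ∀ j e, zWd z j e ≤ dum (d.cW j) (d.CW j) (d.ψW j) (ρW j) e
  totM : ∀ i, ∑ e, zMr z i e + ∑ e, zMd z i e ≤ d.CM i
  totW : ∀ j, ∑ e, zWr z j e + ∑ e, zWd z j e ≤ d.CW j
  real : ∀ i j (p : Fin d.K), z (Sum.inl (i, j, p)) = d.β i j (p + 1) - d.β i j p ∨
    pre (ρM i) (zMr z i) (j, p) + pre (ρM i) (zMd z i) (j, p) = d.CM i ∨
    pre (ρW j) (zWr z j) (i, p) + pre (ρW j) (zWd z j) (i, p) = d.CW j
  stM : ∀ i e, zMd z i e = dum (d.cM i) (d.CM i) (d.ψM i) (ρM i) e ∨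
    ∑ e' ∈ univ.filter (fun e' => ρM i e' < ρM i e), zMr z i e' + pre (ρM i) (zMd z i) e = d.CM i
  stW : ∀ j e, zWd z j e = dum (d.cW j) (d.CW j) (d.ψW j) (ρW j) e ∨
    ∑ e' ∈ univ.filter (fun e' => ρW j e' < ρW j e), zWr z j e' + pre (ρW j) (zWd z j) e = d.CW j

theorem facts {ρM : M → W × Fin d.K → ℕ} {ρW : W → M × Fin d.K → ℕ}
    {z : d.Item ⊕ d.Item ⊕ d.Item → ℤ} (hz : (d.ord ρM ρW).Stable z) : Facts d ρM ρW z := by
  classical
  obtain ⟨h1, h2, h3, h4⟩ := hz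
  refine ⟨fun e => (h1 e).1, fun i j p => (h1 (Sum.inl (i, j, p))).2,
    fun i e => (h1 (Sum.inr (Sum.inl (i, e)))).2,
    fun j e => (h1 (Sum.inr (Sum.inr (e.1, j, e.2)))).2, fun i => ?_, fun j => ?_, fun i j p => ?_,
    fun i e => ?_, fun j e => ?_⟩
  · have := (splitM z i _ (fun _ => True) (fun _ => True) ?_ ?_ ?_).symm.trans_le (h2 (Sum.inl i))
    · simp only [Finset.filter_true] at this
      exact this
    · intro e
      simp [Mkt.ord]
    · intro e
      simp [Mkt.ord]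
    · intro e
      simp [Mkt.ord]
  · have := (splitW z j _ (fun _ => True) (fun _ => True) ?_ ?_ ?_).symm.trans_le (h3 (Sum.inl j))
    · simp only [Finset.filter_true] at this
      exact this
    · intro e
      simp [Mkt.ord]
    · intro e
      simp [Mkt.ord]
    · intro e
      simp [Mkt.ord]
  · rcases h4 (Sum.inl (i, j, p)) with h5 | h5 | h5
    · left
      exact h5
    · right
      left
      refine (splitM z i _ (fun e' => ρM i e' ≤ ρM i (j, p))
        (fun e' => ρM i e' ≤ ρM i (j, p)) ?_ ?_ ?_).symm.trans h5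
      · rintro ⟨i', j', p'⟩
        simp only [Mkt.ord, Sum.inl.injEq]
        constructor
        · rintro ⟨rfl, h⟩
          exact ⟨rfl, by omega⟩
        · rintro ⟨rfl, h⟩
          exact ⟨rfl, by omega⟩
      · rintro ⟨i', j', p'⟩
        simp only [Mkt.ord, Sum.inl.injEq]
        constructor
        · rintro ⟨rfl, h⟩
          exact ⟨rfl, by omega⟩
        · rintro ⟨rfl, h⟩
          exact ⟨rfl, by omega⟩
      · rintro ⟨i', j', p'⟩
        simp [Mkt.ord]
    · right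
      right
      refine (splitW z j _ (fun e' => ρW j e' ≤ ρW j (i, p))
        (fun e' => ρW j e' ≤ ρW j (i, p)) ?_ ?_ ?_).symm.trans h5
      · rintro ⟨i', j', p'⟩
        simp only [Mkt.ord, Sum.inl.injEq]
        constructor
        · rintro ⟨rfl, h⟩
          exact ⟨rfl, by omega⟩
        · rintro ⟨rfl, h⟩
          exact ⟨rfl, by omega⟩
      · rintro ⟨i', j', p'⟩
        simp [Mkt.ord]
      · rintro ⟨i', j', p'⟩
        simp only [Mkt.ord, Sum.inl.injEq]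
        constructor
        · rintro ⟨rfl, h⟩
          exact ⟨rfl, by omega⟩
        · rintro ⟨rfl, h⟩
          exact ⟨rfl, by omega⟩
  · obtain ⟨j0, p0⟩ := e
    rcases h4 (Sum.inr (Sum.inl (i, (j0, p0)))) with h5 | h5 | h5
    · left
      exact h5
    · right
      refine (splitM z i _ (fun e' => ρM i e' < ρM i (j0, p0))
        (fun e' => ρM i e' ≤ ρM i (j0, p0)) ?_ ?_ ?_).symm.trans h5
      · rintro ⟨i', j', p'⟩
        simp only [Mkt.ord, Sum.inl.injEq]
        constructor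
        · rintro ⟨rfl, h⟩
          exact ⟨rfl, by omega⟩
        · rintro ⟨rfl, h⟩
          exact ⟨rfl, by omega⟩
      · rintro ⟨i', j', p'⟩
        simp only [Mkt.ord, Sum.inl.injEq]
        constructor
        · rintro ⟨rfl, h⟩
          exact ⟨rfl, by omega⟩
        · rintro ⟨rfl, h⟩
          exact ⟨rfl, by omega⟩
      · rintro ⟨i', j', p'⟩
        simp [Mkt.ord]
    · left
      refine (splitOne z _ (Sum.inr (Sum.inl (i, j0, p0))) ?_).symm.trans h5
      rintro (⟨i', j', p'⟩ | ⟨i', j', p'⟩ | ⟨i', j', p'⟩)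
      · simp [Mkt.ord]
      · simp [Mkt.ord]
      · simp [Mkt.ord]
  · obtain ⟨i0, p0⟩ := e
    rcases h4 (Sum.inr (Sum.inr (i0, j, p0))) with h5 | h5 | h5
    · left
      exact h5
    · left
      refine (splitOne z _ (Sum.inr (Sum.inr (i0, j, p0))) ?_).symm.trans h5
      rintro (⟨i', j', p'⟩ | ⟨i', j', p'⟩ | ⟨i', j', p'⟩)
      · simp [Mkt.ord]
      · simp [Mkt.ord]
      · simp [Mkt.ord]
    · right
      refine (splitW z j _ (fun e' => ρW j e' < ρW j (i0, p0))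
        (fun e' => ρW j e' ≤ ρW j (i0, p0)) ?_ ?_ ?_).symm.trans h5
      · rintro ⟨i', j', p'⟩
        simp only [Mkt.ord, Sum.inl.injEq]
        constructor
        · rintro ⟨rfl, h⟩
          exact ⟨rfl, by omega⟩
        · rintro ⟨rfl, h⟩
          exact ⟨rfl, by omega⟩
      · rintro ⟨i', j', p'⟩
        simp [Mkt.ord]
      · rintro ⟨i', j', p'⟩
        simp only [Mkt.ord, Sum.inl.injEq]
        constructor
        · rintro ⟨rfl, h⟩
          exact ⟨rfl, by omega⟩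
        · rintro ⟨rfl, h⟩
          exact ⟨rfl, by omega⟩

end SAG
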